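import Mathlib

/-! Helper file: completions of seminormed modules and the diagonal operators on little l2. -/

namespace Pool.Agent.H26.Bpb

open Filter Topology
open scoped ENNReal lp

universe u

/-- every seminorm on a vector space comes from a linear map with dense range into a Banach space -/
theorem exists_completion {𝕜 : Type u} [RCLike 𝕜] {V : Type u} [AddCommGroup V] [Module 𝕜 V]
    (p : Seminorm 𝕜 V) :
    ∃ (Y : Type u) (_ : NormedAddCommGroup Y) (_ : NormedSpace 𝕜 Y) (_ : CompleteSpace Y)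
      (e : V →ₗ[𝕜] Y), DenseRange e ∧ ∀ v, ‖e v‖ = p v := by
  let : Norm V := ⟨p⟩
  have core : SeminormedSpace.Core 𝕜 V :=
    { norm_nonneg := fun x => apply_nonneg p x
      norm_smul := fun c x => map_smul_eq_mul p c x
      norm_triangle := fun x y => map_add_le_add p x y }
  let : SeminormedAddCommGroup V := SeminormedAddCommGroup.ofCore core
  let : NormedSpace 𝕜 V := ⟨fun c x => (map_smul_eq_mul p c x).le⟩
  refine ⟨UniformSpace.Completion V, inferInstance, inferInstance, inferInstance,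
    (UniformSpace.Completion.toComplₗᵢ (𝕜 := 𝕜) (E := V)).toLinearMap, ?_, ?_⟩
  · exact UniformSpace.Completion.denseRange_coe
  · intro v
    exact UniformSpace.Completion.norm_coe v

section H

variable (𝕜 : Type u) [RCLike 𝕜]

/-- square-summable sequences -/
abbrev HH := lp (fun _ : ℕ => 𝕜) 2

variable {𝕜}

theorem hasSum_sq (h : HH 𝕜) : HasSum (fun i => ‖h i‖ ^ 2) (‖h‖ ^ 2) := by
  have := lp.hasSum_norm (p := 2) (by norm_num) h
  simpa using this

theorem coord_le (h : HH 𝕜) (i : ℕ) : ‖h i‖ ≤ ‖h‖ := lp.norm_apply_le_norm (by norm_num) h i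

/-- diagonal operator with real coefficients in the unit interval -/
noncomputable def diag (c : ℕ → ℝ) (hc : ∀ i, |c i| ≤ 1) : HH 𝕜 →ₗ[𝕜] HH 𝕜 where
  toFun h := ⟨fun i => (c i : 𝕜) * h i, by
    refine (lp.memℓp h).mono' fun i => ?_
    rw [norm_mul, RCLike.norm_ofReal]
    exact mul_le_of_le_one_left (norm_nonneg _) (hc i)⟩
  map_add' x y := by
    ext i
    simp [mul_add]
  map_smul' a x := by
    ext i
    simp
    ring

theorem diag_apply (c : ℕ → ℝ) (hc : ∀ i, |c i| ≤ 1) (h : HH 𝕜) (i : ℕ) :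
    diag c hc h i = (c i : 𝕜) * h i := rfl

theorem norm_diag_apply (c : ℕ → ℝ) (hc : ∀ i, |c i| ≤ 1) (h : HH 𝕜) (i : ℕ) :
    ‖diag c hc h i‖ = |c i| * ‖h i‖ := by
  rw [diag_apply, norm_mul, RCLike.norm_ofReal]

theorem diag_hasSum (c : ℕ → ℝ) (hc : ∀ i, |c i| ≤ 1) (h : HH 𝕜) :
    HasSum (fun i => c i ^ 2 * ‖h i‖ ^ 2) (‖diag c hc h‖ ^ 2) := by
  have := hasSum_sq (diag c hc h)
  convert this using 2 with i
  rw [norm_diag_apply, mul_pow, sq_abs]

theorem norm_diag_le (c : ℕ → ℝ) (hc : ∀ i, |c i| ≤ 1) (h : HH 𝕜) : ‖diag c hc h‖ ≤ ‖h‖ := by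
  have h1 : ‖diag c hc h‖ ^ 2 ≤ ‖h‖ ^ 2 := by
    refine hasSum_le (fun i => ?_) (diag_hasSum c hc h) (hasSum_sq h)
    have : c i ^ 2 ≤ 1 := by
      rw [← sq_abs]; exact pow_le_one₀ (abs_nonneg _) (hc i)
    exact mul_le_of_le_one_left (by positivity) this
  exact (sq_le_sq₀ (norm_nonneg _) (norm_nonneg _)).1 h1

/-- the weights: every value `1/(1+k)` is taken infinitely often -/
noncomputable def wt (i : ℕ) : ℝ := 1 / (1 + ((Nat.unpair i).1 : ℝ))

theorem wt_pos (i : ℕ) : 0 < wt i := by unfold wt; positivity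

theorem wt_le_one (i : ℕ) : wt i ≤ 1 := by
  unfold wt
  rw [div_le_one (by positivity)]
  have : (0 : ℝ) ≤ (Nat.unpair i).1 := by positivity
  linarith

theorem wt_pair (k j : ℕ) : wt (Nat.pair k j) = 1 / (1 + (k : ℝ)) := by
  unfold wt; rw [Nat.unpair_pair]

/-- coefficients of the weighted tail operator -/
noncomputable def omc (m : ℕ) (i : ℕ) : ℝ := if m ≤ i then √(wt i) else 0

theorem omc_abs (m i : ℕ) : |omc m i| ≤ 1 := by
  unfold omc
  split_ifs
  · rw [abs_of_nonneg (Real.sqrt_nonneg _)]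
    exact Real.sqrt_le_one.2 (wt_le_one i) 
  · simp

/-- the weighted tail operator -/
noncomputable def Om (m : ℕ) : HH 𝕜 →ₗ[𝕜] HH 𝕜 := diag (omc m) (omc_abs m)

/-- coefficients of the projection on the first coordinates -/
noncomputable def prc (m : ℕ) (i : ℕ) : ℝ := if i < m then 1 else 0

theorem prc_abs (m i : ℕ) : |prc m i| ≤ 1 := by
  unfold prc
  split_ifs <;> simp

/-- the projection on the first coordinates -/
noncomputable def Pr (m : ℕ) : HH 𝕜 →ₗ[𝕜] HH 𝕜 := diag (prc m) (prc_abs m)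

theorem norm_Om_le (m : ℕ) (h : HH 𝕜) : ‖Om m h‖ ≤ ‖h‖ := norm_diag_le _ _ _
theorem norm_Pr_le (m : ℕ) (h : HH 𝕜) : ‖Pr m h‖ ≤ ‖h‖ := norm_diag_le _ _ _

theorem Pr_apply (m : ℕ) (h : HH 𝕜) (i : ℕ) : Pr m h i = if i < m then h i else 0 := by
  unfold Pr
  rw [diag_apply]
  unfold prc
  split_ifs <;> simp

theorem Om_apply (m : ℕ) (h : HH 𝕜) (i : ℕ) :
    Om m h i = if m ≤ i then ((√(wt i) : ℝ) : 𝕜) * h i else 0 := by
  unfold Om
  rw [diag_apply]
  unfold omc
  split_ifs <;> simp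

theorem Pr_eq_sum (m : ℕ) (h : HH 𝕜) :
    Pr m h = ∑ i ∈ Finset.range m, h i • lp.single 2 i (1 : 𝕜) := by
  ext j
  rw [Pr_apply, lp.coeFn_sum, Finset.sum_apply]
  have : ∀ i ∈ Finset.range m, (h i • lp.single 2 i (1 : 𝕜) : HH 𝕜) j
      = if i = j then h j else 0 := by
    intro i _
    rw [lp.coeFn_smul, Pi.smul_apply, lp.single_apply]
    by_cases hij : i = j
    · subst hij; simp
    · simp [hij, Ne.symm hij]
  rw [Finset.sum_congr rfl this]
  simp

theorem Pr_Pr {m M : ℕ} (hm : m ≤ M) (h : HH 𝕜) : Pr m (Pr M h) = Pr m h := by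
  ext i
  simp only [Pr_apply]
  by_cases hi : i < m
  · simp [hi, lt_of_lt_of_le hi hm]
  · simp [hi]

theorem Pr_Pr' {m M : ℕ} (hm : m ≤ M) (h : HH 𝕜) : Pr M (Pr m h) = Pr m h := by
  ext i
  simp only [Pr_apply]
  by_cases hi : i < m
  · simp [hi, lt_of_lt_of_le hi hm]
  · simp [hi]

theorem Om_Pr {m M : ℕ} (hm : M ≤ m) (h : HH 𝕜) : Om m (Pr M h) = 0 := by
  ext i
  rw [Om_apply, Pr_apply]
  by_cases hi : m ≤ i
  · have : ¬ i < M := by omega
    simp [this]
  · simp [hi]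

/-- splitting of the weighted tail norm -/
theorem Om_split {m M : ℕ} (hm : m ≤ M) (h : HH 𝕜) :
    ‖Om m (Pr M h)‖ ^ 2 + ‖Om M h‖ ^ 2 = ‖Om m h‖ ^ 2 := by
  have h1 := diag_hasSum (omc m) (omc_abs m) (Pr M h)
  have h2 := diag_hasSum (omc M) (omc_abs M) h
  have h3 := diag_hasSum (omc m) (omc_abs m) h
  have h4 := h1.add h2
  refine h4.unique ?_
  have h5 : (fun b => omc m b ^ 2 * ‖(Pr M h) b‖ ^ 2 + omc M b ^ 2 * ‖h b‖ ^ 2)
      = fun i => omc m i ^ 2 * ‖h i‖ ^ 2 := by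
    funext i
    rw [Pr_apply]
    unfold omc
    by_cases hi : i < M
    · have : ¬ M ≤ i := by omega
      simp [hi, this]
    · have h5 : M ≤ i := by omega
      have h6 : m ≤ i := by omega
      simp [hi, h5, h6]
  rw [h5]
  exact h3

theorem tendsto_Pr (h : HH 𝕜) : Tendsto (fun m => Pr m h) atTop (𝓝 h) := by
  have := lp.hasSum_single (E := fun _ : ℕ => 𝕜) (p := 2) (by norm_num) h
  have h2 := this.tendsto_sum_nat
  refine h2.congr fun m => ?_
  rw [Pr_eq_sum]
  refine Finset.sum_congr rfl fun i _ => ?_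
  ext j
  rw [lp.coeFn_smul, Pi.smul_apply, lp.single_apply, lp.single_apply]
  by_cases hij : j = i
  · subst hij; simp
  · simp [hij]

end H

end Pool.Agent.H26.Bpb
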