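import Pool.Agent.H26.BpbSpace

/-! Helper file: the completed range space and its properties. -/

namespace Pool.Agent.H26.Bpb

open Filter Topology
open scoped ENNReal lp

universe u

variable {𝕜 : Type u} [RCLike 𝕜]

theorem sn_lip {Y E F : Type u} [NormedAddCommGroup Y] [NormedSpace 𝕜 Y]
    [NormedAddCommGroup E] [NormedSpace 𝕜 E] [NormedAddCommGroup F] [NormedSpace 𝕜 F]
    (A : Y →ₗ[𝕜] E) (B : Y →ₗ[𝕜] F) (h : ∀ y, sn A B y ≤ ‖y‖) (x y : Y) :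
    sn A B x ≤ sn A B y + ‖x - y‖ := by
  have h1 : sn A B x ≤ sn A B y + sn A B (x - y) := by
    have := map_add_le_add (sn A B) y (x - y)
    simpa using this
  have := h (x - y)
  linarith

/-- the continuous Hilbert component -/
noncomputable def hcl {Y : Type u} [NormedAddCommGroup Y] [NormedSpace 𝕜 Y] (Z : Y →L[𝕜] XX 𝕜)
    (m : ℕ) : Y →ₗ[𝕜] HH 𝕜 := Om m ∘ₗ sndl ∘ₗ (Z : Y →ₗ[𝕜] XX 𝕜)

theorem hcl_apply {Y : Type u} [NormedAddCommGroup Y] [NormedSpace 𝕜 Y] (Z : Y →L[𝕜] XX 𝕜)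
    (m : ℕ) (y : Y) : hcl Z m y = Om m (Z y).snd := rfl

variable (𝕜) in
theorem exists_space : ∃ (Y : Type u) (_ : NormedAddCommGroup Y) (_ : NormedSpace 𝕜 Y)
    (_ : CompleteSpace Y) (Z : Y →L[𝕜] XX 𝕜) (G : ℕ → Y →L[𝕜] 𝕜) (A : XX 𝕜 →L[𝕜] Y)
    (R : ℕ → Y →L[𝕜] Y),
    (∀ y, sn (Z : Y →ₗ[𝕜] XX 𝕜) (hcl Z 0) y ≤ ‖y‖) ∧
    (∀ m y, sn (G m : Y →ₗ[𝕜] 𝕜) (hcl Z m) y ≤ ‖y‖) ∧
    (∀ y, ∀ ε : ℝ, 0 < ε → ‖y‖ ≤ sn (Z : Y →ₗ[𝕜] XX 𝕜) (hcl Z 0) y + ε ∨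
      ∃ m, ‖y‖ ≤ sn (G m : Y →ₗ[𝕜] 𝕜) (hcl Z m) y + ε) ∧
    (∀ x, Z (A x) = x) ∧
    (∀ x, ‖A x‖ ^ 2 = ‖x‖ ^ 2 + ‖Om 0 x.snd‖ ^ 2) ∧
    (∀ M y, ‖R M y‖ ≤ ‖y‖) ∧
    (∀ y, Tendsto (fun M => R M y) atTop (𝓝 y)) ∧
    (∀ M (g : Y →L[𝕜] 𝕜), ‖g‖ ≤ 1 → ∀ δ : ℝ, 0 < δ → ∃ (g' : Y →L[𝕜] 𝕜) (e : Y),
      ‖e‖ ≤ 1 ∧ ‖g'‖ ≤ 1 ∧ (∀ y, ‖g' y - g (R M y)‖ ≤ δ * ‖y‖) ∧
      ∀ y t, ‖R M y + t • e‖ = max ‖R M y‖ ‖g' (R M y) + t‖) := by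
  obtain ⟨Y, iY1, iY2, iY3, e, hd, he⟩ := exists_completion (nn : Seminorm 𝕜 (VV 𝕜))
  have bZ : ∀ v, ‖Zl v‖ ≤ 1 * ‖e v‖ := fun v => by rw [one_mul, he]; exact norm_Zl_le v
  have bG : ∀ m v, ‖GG m v‖ ≤ 1 * ‖e v‖ := fun m v => by rw [one_mul, he]; exact norm_GG_le m v
  have bg : ∀ m v, ‖gg m v‖ ≤ 1 * ‖e v‖ := fun m v => by rw [one_mul, he]; exact norm_gg_le m v
  have bR : ∀ M v, ‖(e ∘ₗ RV M) v‖ ≤ 1 * ‖e v‖ := fun M v => by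
    rw [one_mul, LinearMap.comp_apply, he, he]; exact nn_RV_le M v
  have bA : ∀ z, ‖(e ∘ₗ inX) z‖ ^ 2 = ‖z‖ ^ 2 + ‖Om 0 z.snd‖ ^ 2 := fun z => by
    rw [LinearMap.comp_apply, he, nn_inX, nrm_zero_sq]; rfl
  have bA' : ∀ z, ‖(e ∘ₗ inX) z‖ ≤ 2 * ‖z‖ := fun z => by
    rw [← sq_le_sq₀ (norm_nonneg _) (by positivity), bA, mul_pow]
    have h1 := norm_Om_le 0 z.snd
    have h2 := snd_le z
    have h3 : ‖Om 0 z.snd‖ ^ 2 ≤ ‖z‖ ^ 2 := by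
      have := h1.trans h2
      gcongr
    have : 0 ≤ ‖z‖ ^ 2 := by positivity
    linarith
  set Z : Y →L[𝕜] XX 𝕜 := Zl.extendOfNorm e with hZ
  set G : ℕ → Y →L[𝕜] 𝕜 := fun m => (GG m).extendOfNorm e with hG
  set g₀ : ℕ → Y →L[𝕜] 𝕜 := fun m => (gg m).extendOfNorm e with hg₀
  set R : ℕ → Y →L[𝕜] Y := fun M => (e ∘ₗ RV M).extendOfNorm e with hR
  set A : XX 𝕜 →L[𝕜] Y := (e ∘ₗ inX).mkContinuous 2 bA' with hA
  have eZ : ∀ v, Z (e v) = Zl v := fun v => LinearMap.extendOfNorm_eq hd ⟨1, bZ⟩ v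
  have eG : ∀ m v, G m (e v) = GG m v := fun m v => LinearMap.extendOfNorm_eq hd ⟨1, bG m⟩ v
  have eg : ∀ m v, g₀ m (e v) = gg m v := fun m v => LinearMap.extendOfNorm_eq hd ⟨1, bg m⟩ v
  have eR : ∀ M v, R M (e v) = e (RV M v) := fun M v => LinearMap.extendOfNorm_eq hd ⟨1, bR M⟩ v
  have nR : ∀ M y, ‖R M y‖ ≤ ‖y‖ := fun M y => by
    simpa using LinearMap.norm_extendOfNorm_apply_le hd 1 (bR M) y
  have ng : ∀ m, ‖g₀ m‖ ≤ 1 := fun m => LinearMap.opNorm_extendOfNorm_le hd zero_le_one (bg m)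
  have s0 : ∀ v, sn (Z : Y →ₗ[𝕜] XX 𝕜) (hcl Z 0) (e v) = nrm 0 v := by
    intro v
    rw [← sq_eq_sq₀ (sn_nonneg _ _ _) (nrm_nonneg _ _), sn_sq, nrm_zero_sq, hcl_apply,
      ContinuousLinearMap.coe_coe, eZ]
    rfl
  have sm : ∀ m v, sn (G m : Y →ₗ[𝕜] 𝕜) (hcl Z m) (e v) = qn m v := by
    intro m v
    rw [← sq_eq_sq₀ (sn_nonneg _ _ _) (qn_nonneg _ _), sn_sq, qn_sq, hcl_apply,
      ContinuousLinearMap.coe_coe, eZ, eG]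
    rfl
  have cOm : ∀ m, Continuous (Om m : HH 𝕜 →ₗ[𝕜] HH 𝕜) := fun m =>
    AddMonoidHomClass.continuous_of_bound (Om m : HH 𝕜 →ₗ[𝕜] HH 𝕜) 1
      (fun h => by rw [one_mul]; exact norm_Om_le m h)
  have csnd : Continuous (sndl : XX 𝕜 →ₗ[𝕜] HH 𝕜) :=
    AddMonoidHomClass.continuous_of_bound (sndl : XX 𝕜 →ₗ[𝕜] HH 𝕜) 1
      (fun h => by rw [one_mul]; exact snd_le h)
  have chc : ∀ m, Continuous (hcl Z m) := fun m => (cOm m).comp (csnd.comp Z.continuous)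
  have p1 : ∀ y, sn (Z : Y →ₗ[𝕜] XX 𝕜) (hcl Z 0) y ≤ ‖y‖ := by
    intro y
    rw [sn_le_iff _ _ _ (norm_nonneg _)]
    have c0 := chc 0
    refine hd.induction_on (p := fun y => ‖(Z : Y →ₗ[𝕜] XX 𝕜) y‖ ^ 2 + ‖hcl Z 0 y‖ ^ 2 ≤ ‖y‖ ^ 2) y
      (isClosed_le ?_ ?_) ?_
    · exact ((Z.continuous.norm).pow 2).add ((c0.norm).pow 2)
    · fun_prop
    · intro v
      rw [← sn_le_iff _ _ _ (norm_nonneg _), s0, he]
      exact nrm_le_nn 0 v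
  have p2 : ∀ m y, sn (G m : Y →ₗ[𝕜] 𝕜) (hcl Z m) y ≤ ‖y‖ := by
    intro m y
    rw [sn_le_iff _ _ _ (norm_nonneg _)]
    have c0 := chc m
    refine hd.induction_on (p := fun y => ‖(G m : Y →ₗ[𝕜] 𝕜) y‖ ^ 2 + ‖hcl Z m y‖ ^ 2 ≤ ‖y‖ ^ 2) y
      (isClosed_le ?_ ?_) ?_
    · exact (((G m).continuous.norm).pow 2).add ((c0.norm).pow 2)
    · fun_prop
    · intro v
      rw [← sn_le_iff _ _ _ (norm_nonneg _), sm, he]
      exact qn_le_nn m v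
  refine ⟨Y, iY1, iY2, iY3, Z, G, A, R, p1, p2, ?_, ?_, ?_, nR, ?_, ?_⟩
  · intro y ε hε
    obtain ⟨v, hv⟩ := hd.exists_dist_lt y (show 0 < ε / 2 by positivity)
    rw [dist_eq_norm] at hv
    have h1 : ‖y‖ ≤ nn v + ε / 2 := by
      rw [← he]
      have : ‖y‖ ≤ ‖e v‖ + ‖y - e v‖ := by
        simpa using norm_add_le (e v) (y - e v)
      linarith
    have hv' : ‖e v - y‖ < ε / 2 := by rw [norm_sub_rev]; exact hv
    rcases nn_attained v with h | ⟨m, h⟩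
    · left
      have h2 := sn_lip _ _ p1 (e v) y
      rw [s0] at h2
      linarith
    · right
      refine ⟨m, ?_⟩
      have h2 := sn_lip _ _ (p2 m) (e v) y
      rw [sm] at h2
      linarith
  · intro x
    change Z (e (inX x)) = x
    rw [eZ]; rfl
  · intro x
    exact bA x
  · -- strong convergence
    intro y
    rw [Metric.tendsto_atTop]
    intro ε hε
    obtain ⟨v, hv⟩ := hd.exists_dist_lt y (show 0 < ε / 3 by positivity)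
    rw [dist_eq_norm] at hv
    have h1 := (Metric.tendsto_atTop.1 (tendsto_RV v)) (ε / 3) (by positivity)
    obtain ⟨N, hN⟩ := h1
    refine ⟨N, fun M hM => ?_⟩
    have h2 := hN M hM
    rw [Real.dist_eq, sub_zero, abs_of_nonneg (nn_nonneg _), ← he, map_sub, ← eR] at h2
    rw [dist_eq_norm]
    have h3 : R M y - y = R M (y - e v) + (R M (e v) - e v) - (y - e v) := by
      rw [map_sub]; abel
    rw [h3]
    have h4 := norm_sub_le (R M (y - e v) + (R M (e v) - e v)) (y - e v)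
    have h5 := norm_add_le (R M (y - e v)) (R M (e v) - e v)
    have h6 := nR M (y - e v)
    linarith
  · intro M g hg δ hδ
    have hb : ∀ v, ‖((g : Y →ₗ[𝕜] 𝕜) ∘ₗ e) v‖ ≤ nn v := by
      intro v
      rw [← he]
      exact (g.le_of_opNorm_le hg _).trans (by rw [one_mul])
    obtain ⟨m, hm, hgm⟩ := gg_dense M ((g : Y →ₗ[𝕜] 𝕜) ∘ₗ e) hb
      (show 0 < min δ (1 / 2) by positivity) (lt_of_le_of_lt (min_le_right _ _) (by norm_num))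
    refine ⟨g₀ m, e (be m), ?_, ng m, ?_, ?_⟩
    · rw [he]; exact gg_zero_be m
    · intro y
      have hc : ∀ y, ‖g₀ m y - g (R M y)‖ ≤ min δ (1 / 2) * ‖y‖ := by
        intro y
        refine hd.induction_on (p := fun y => ‖g₀ m y - g (R M y)‖ ≤ min δ (1 / 2) * ‖y‖) y
          (isClosed_le (by fun_prop) (by fun_prop)) ?_
        intro v
        rw [eg, eR, he]
        exact hgm v
      exact (hc y).trans (mul_le_mul_of_nonneg_right (min_le_left _ _) (norm_nonneg _))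
    · intro y t
      refine hd.induction_on
        (p := fun y => ‖R M y + t • e (be m)‖ = max ‖R M y‖ ‖g₀ m (R M y) + t‖) y
        (isClosed_eq (by fun_prop) (by fun_prop)) ?_
      intro v
      rw [eR, eg, ← map_smul, ← map_add, he, he]
      exact nn_add hm v t

end Pool.Agent.H26.Bpb
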