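import Mathlib

/-! The two properties of pairs of Banach spaces. -/

namespace Pool.Agent.H26.Bpb

universe u

/-- the pointwise Bishop-Phelps-Bollobas property of a pair of Banach spaces -/
def PointwiseBPB (𝕜 : Type u) [RCLike 𝕜] (X Y : Type u) [NormedAddCommGroup X] [NormedSpace 𝕜 X]
    [NormedAddCommGroup Y] [NormedSpace 𝕜 Y] : Prop :=
  ∀ ε : ℝ, 0 < ε → ∃ η : ℝ, 0 < η ∧ ∀ (T : X →L[𝕜] Y) (x₀ : X), ‖T‖ = 1 → ‖x₀‖ = 1 →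
    1 - η < ‖T x₀‖ → ∃ S : X →L[𝕜] Y, ‖S‖ = 1 ∧ ‖S x₀‖ = 1 ∧ ‖S - T‖ < ε

/-- the compact-operator version of the pointwise Bishop-Phelps-Bollobas property -/
def PointwiseBPBCompact (𝕜 : Type u) [RCLike 𝕜] (X Y : Type u) [NormedAddCommGroup X]
    [NormedSpace 𝕜 X] [NormedAddCommGroup Y] [NormedSpace 𝕜 Y] : Prop :=
  ∀ ε : ℝ, 0 < ε → ∃ η : ℝ, 0 < η ∧ ∀ (T : X →L[𝕜] Y) (x₀ : X), IsCompactOperator T →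
    ‖T‖ = 1 → ‖x₀‖ = 1 → 1 - η < ‖T x₀‖ →
    ∃ S : X →L[𝕜] Y, IsCompactOperator S ∧ ‖S‖ = 1 ∧ ‖S x₀‖ = 1 ∧ ‖S - T‖ < ε

end Pool.Agent.H26.Bpb
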