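import Pool.Agent.H26.BpbPos

/-! Helper file: failure of the property for all operators. -/

namespace Pool.Agent.H26.Bpb

open Filter Topology
open scoped ENNReal lp

universe u

variable {𝕜 : Type u} [RCLike 𝕜]

theorem pair_inj (k : ℕ) : Function.Injective (Nat.pair k) := by
  intro a b h
  have := congrArg (fun i => (Nat.unpair i).2) h
  simpa using this

theorem ext_hasSum (k : ℕ) (h : HH 𝕜) :
    HasSum (fun i => ‖(if (Nat.unpair i).1 = k then h (Nat.unpair i).2 else 0 : 𝕜)‖ ^ 2)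
      (‖h‖ ^ 2) := by
  rw [← (pair_inj k).hasSum_iff]
  · convert hasSum_sq h using 2 with j
    simp
  · intro i hi
    have : (Nat.unpair i).1 ≠ k := by
      intro hk
      apply hi
      refine ⟨(Nat.unpair i).2, ?_⟩
      rw [← hk, Nat.pair_unpair]
    simp [this]

/-- spreading a sequence over the coordinates of weight `1/(1+k)` -/
noncomputable def Jk (k : ℕ) : HH 𝕜 →ₗ[𝕜] HH 𝕜 where
  toFun h := ⟨fun i => if (Nat.unpair i).1 = k then h (Nat.unpair i).2 else 0, by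
    apply memℓp_gen
    have := (ext_hasSum k h).summable
    simpa using this⟩
  map_add' x y := by
    ext i
    change (if (Nat.unpair i).1 = k then x (Nat.unpair i).2 + y (Nat.unpair i).2 else 0)
      = (if (Nat.unpair i).1 = k then x (Nat.unpair i).2 else 0)
        + (if (Nat.unpair i).1 = k then y (Nat.unpair i).2 else 0)
    split_ifs <;> simp
  map_smul' a x := by
    ext i
    change (if (Nat.unpair i).1 = k then a * x (Nat.unpair i).2 else 0)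
      = a * (if (Nat.unpair i).1 = k then x (Nat.unpair i).2 else 0)
    split_ifs <;> simp

theorem Jk_apply (k : ℕ) (h : HH 𝕜) (i : ℕ) :
    Jk k h i = if (Nat.unpair i).1 = k then h (Nat.unpair i).2 else 0 := rfl

theorem Jk_pair (k j : ℕ) (h : HH 𝕜) : Jk k h (Nat.pair k j) = h j := by
  rw [Jk_apply]; simp

theorem norm_Jk (k : ℕ) (h : HH 𝕜) : ‖Jk k h‖ = ‖h‖ := by
  have h1 : ‖Jk k h‖ ^ 2 = ‖h‖ ^ 2 := (hasSum_sq (Jk k h)).unique (ext_hasSum k h)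
  exact (sq_eq_sq₀ (norm_nonneg _) (norm_nonneg _)).1 h1

theorem Om_Jk (k : ℕ) (h : HH 𝕜) : ‖Om 0 (Jk k h)‖ ^ 2 = 1 / (1 + (k : ℝ)) * ‖h‖ ^ 2 := by
  have h1 := diag_hasSum (omc 0) (omc_abs 0) (Jk k h)
  have h2 := (ext_hasSum k h).mul_left (1 / (1 + (k : ℝ)))
  refine h1.unique ?_
  have h3 : (fun i => omc 0 i ^ 2 * ‖Jk k h i‖ ^ 2) = fun i => 1 / (1 + (k : ℝ)) *
      ‖(if (Nat.unpair i).1 = k then h (Nat.unpair i).2 else 0 : 𝕜)‖ ^ 2 := by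
    funext i
    rw [Jk_apply]
    unfold omc
    rw [if_pos (Nat.zero_le _), Real.sq_sqrt (wt_pos i).le]
    split_ifs with hi
    · rw [wt, hi]
    · simp
  rw [h3]
  exact h2

/-- the isometric spreading of `XX` -/
noncomputable def TX (k : ℕ) : XX 𝕜 →ₗ[𝕜] XX 𝕜 where
  toFun z := WithLp.toLp 4 (z.fst, Jk k z.snd)
  map_add' x y := by
    rw [WithLp.add_fst, WithLp.add_snd, map_add]
    rfl
  map_smul' c x := by
    rw [WithLp.smul_fst, WithLp.smul_snd, map_smul]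
    rfl

@[simp] theorem TX_fst (k : ℕ) (z : XX 𝕜) : (TX k z).fst = z.fst := rfl
@[simp] theorem TX_snd (k : ℕ) (z : XX 𝕜) : (TX k z).snd = Jk k z.snd := rfl

theorem norm_TX (k : ℕ) (z : XX 𝕜) : ‖TX k z‖ = ‖z‖ := by
  have h : ‖TX k z‖ ^ 4 = ‖z‖ ^ 4 := by
    rw [XX_norm4, XX_norm4, TX_fst, TX_snd, norm_Jk]
  exact (pow_left_inj₀ (norm_nonneg _) (norm_nonneg _) (by norm_num)).1 h

/-- the base point -/
noncomputable def xz : XX 𝕜 := WithLp.toLp 4 (1, 0)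

/-- the weakly null perturbations -/
noncomputable def kn (b : ℝ) (n : ℕ) : XX 𝕜 := WithLp.toLp 4 (0, lp.single 2 n (b : 𝕜))

theorem norm_xz : ‖(xz : XX 𝕜)‖ = 1 := by
  have h : ‖(xz : XX 𝕜)‖ ^ 4 = 1 ^ 4 := by
    rw [XX_norm4]
    simp [xz]
  exact (pow_left_inj₀ (norm_nonneg _) zero_le_one (by norm_num)).1 h

theorem norm_kn {b : ℝ} (hb : 0 ≤ b) (n : ℕ) : ‖(kn b n : XX 𝕜)‖ = b := by
  have h : ‖(kn b n : XX 𝕜)‖ ^ 4 = b ^ 4 := by
    rw [XX_norm4]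
    have h1 : (kn b n : XX 𝕜).fst = 0 := rfl
    have h2 : (kn b n : XX 𝕜).snd = lp.single 2 n (b : 𝕜) := rfl
    rw [h1, h2, lp.norm_single (by norm_num), RCLike.norm_ofReal, abs_of_nonneg hb]
    simp
  exact (pow_left_inj₀ (norm_nonneg _) hb (by norm_num)).1 h

theorem norm_xz_kn {b : ℝ} (hb : 0 ≤ b) (n : ℕ) : ‖(xz + kn b n : XX 𝕜)‖ ^ 4 = 1 + b ^ 4 := by
  rw [XX_norm4]
  have h1 : (xz + kn b n : XX 𝕜).fst = 1 + 0 := rfl
  have h2 : (xz + kn b n : XX 𝕜).snd = 0 + lp.single 2 n (b : 𝕜) := rfl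
  rw [h1, h2, zero_add, lp.norm_single (by norm_num), RCLike.norm_ofReal, abs_of_nonneg hb]
  simp

theorem norm_xz_kn_sq {b : ℝ} (hb : 0 ≤ b) (n : ℕ) :
    ‖(xz + kn b n : XX 𝕜)‖ ^ 2 ≤ 1 + b ^ 4 / 2 := by
  have h := norm_xz_kn (𝕜 := 𝕜) hb n
  have h1 : (‖(xz + kn b n : XX 𝕜)‖ ^ 2) ^ 2 ≤ (1 + b ^ 4 / 2) ^ 2 := by
    have : (‖(xz + kn b n : XX 𝕜)‖ ^ 2) ^ 2 = ‖(xz + kn b n : XX 𝕜)‖ ^ 4 := by ring
    rw [this, h]
    have : 0 ≤ (b ^ 4 / 2) ^ 2 := by positivity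
    nlinarith
  exact (sq_le_sq₀ (by positivity) (by positivity)).1 h1

/-- weak nullness -/
theorem tendsto_kn (b : ℝ) (φ : XX 𝕜 →L[𝕜] 𝕜) :
    Tendsto (fun n => φ (kn b n)) atTop (𝓝 0) := by
  set inr : HH 𝕜 →ₗ[𝕜] XX 𝕜 :=
    { toFun := fun h => WithLp.toLp 4 (0, h)
      map_add' := fun x y => by
        apply WithLp.ofLp_injective
        exact Prod.ext (by simp) rfl
      map_smul' := fun c x => by
        apply WithLp.ofLp_injective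
        exact Prod.ext (by simp) rfl } with hinr
  have hb : ∀ h, ‖inr h‖ ≤ 1 * ‖h‖ := by
    intro h
    have h4 : ‖inr h‖ ^ 4 = ‖h‖ ^ 4 := by
      rw [XX_norm4]
      have h1 : (inr h).fst = 0 := rfl
      have h2 : (inr h).snd = h := rfl
      rw [h1, h2]; simp
    rw [one_mul]
    exact ((pow_left_inj₀ (norm_nonneg _) (norm_nonneg _) (by norm_num)).1 h4).le
  set ψ : HH 𝕜 →L[𝕜] 𝕜 := φ ∘L (inr.mkContinuous 1 hb) with hψ
  set u := (InnerProductSpace.toDual 𝕜 (HH 𝕜)).symm ψ with hu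
  have h1 : ∀ n, φ (kn b n) = (b : 𝕜) * (starRingEnd 𝕜) (u n) := by
    intro n
    have h2 : φ (kn b n) = ψ (lp.single 2 n (b : 𝕜)) := rfl
    rw [h2, ← InnerProductSpace.toDual_symm_apply, ← hu, lp.inner_single_right]
    rw [RCLike.inner_apply]
  have h2 : Tendsto (fun n => u n) atTop (𝓝 0) := by
    have h3 := (hasSum_sq u).summable.tendsto_atTop_zero
    rw [tendsto_zero_iff_norm_tendsto_zero]
    have h4 := h3.sqrt
    simpa using h4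
  have h3 : Tendsto (fun n => (b : 𝕜) * (starRingEnd 𝕜) (u n)) atTop (𝓝 0) := by
    have h5 := ((RCLike.continuous_conj (K := 𝕜)).tendsto 0).comp h2
    rw [map_zero] at h5
    have h6 := h5.const_mul (b : 𝕜)
    rw [mul_zero] at h6
    exact h6
  exact h3.congr fun n => (h1 n).symm

/-- the key lower estimate along weakly null perturbations -/
theorem lower_est {Y F : Type u} [NormedAddCommGroup Y] [NormedSpace 𝕜 Y]
    [NormedAddCommGroup F] [NormedSpace 𝕜 F] (Z : Y →L[𝕜] XX 𝕜)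
    (Q : Y →L[𝕜] F) (m : ℕ) (hQ : ∀ y, sn (Q : Y →ₗ[𝕜] F) (hcl Z m) y ≤ ‖y‖)
    (S : XX 𝕜 →L[𝕜] Y) (hS : ‖S‖ ≤ 1) (k : ℕ) {b : ℝ} (hb : 0 < b)
    (hlow : ∀ n, b / 4 ≤ ‖(Z (S (kn b n))).snd (Nat.pair k n)‖) :
    sn (Q : Y →ₗ[𝕜] F) (hcl Z m) (S xz) ^ 2 + 1 / (1 + (k : ℝ)) * b ^ 2 / 16
      ≤ 1 + b ^ 4 / 2 := by
  obtain ⟨f, hf1, hf⟩ := exists_dual_vector'' 𝕜 (Q (S xz))
  -- the continuous Hilbert part
  set L : Y →L[𝕜] HH 𝕜 := (hcl Z m).mkContinuous 1 (fun y => by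
    rw [one_mul]
    refine le_trans ?_ (hQ y)
    rw [← sq_le_sq₀ (norm_nonneg _) (sn_nonneg _ _ _), sn_sq]
    have : 0 ≤ ‖(Q : Y →ₗ[𝕜] F) y‖ ^ 2 := by positivity
    linarith) with hL
  have hLa : ∀ y, L y = hcl Z m y := fun y => rfl
  have t1 := tendsto_kn b (f ∘L Q ∘L S)
  have t2 := tendsto_kn b ((InnerProductSpace.toDual 𝕜 (HH 𝕜) (L (S xz))) ∘L L ∘L S)
  have t3 : Tendsto (fun n => ‖f (Q (S xz)) + (f ∘L Q ∘L S) (kn b n)‖ ^ 2
      + (‖L (S xz)‖ ^ 2 + 2 * RCLike.re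
        (((InnerProductSpace.toDual 𝕜 (HH 𝕜) (L (S xz))) ∘L L ∘L S) (kn b n))
        + 1 / (1 + (k : ℝ)) * b ^ 2 / 16)) atTop
      (𝓝 (‖f (Q (S xz)) + 0‖ ^ 2 + (‖L (S xz)‖ ^ 2 + 2 * RCLike.re (0 : 𝕜)
        + 1 / (1 + (k : ℝ)) * b ^ 2 / 16))) := by
    refine Tendsto.add ?_ ?_
    · exact ((t1.const_add _).norm).pow 2
    · refine Tendsto.add_const _ ?_
      refine Tendsto.const_add _ ?_
      exact (((RCLike.continuous_re (K := 𝕜)).tendsto 0).comp t2).const_mul 2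
  have t4 : ∀ᶠ n in atTop, ‖f (Q (S xz)) + (f ∘L Q ∘L S) (kn b n)‖ ^ 2
      + (‖L (S xz)‖ ^ 2 + 2 * RCLike.re
        (((InnerProductSpace.toDual 𝕜 (HH 𝕜) (L (S xz))) ∘L L ∘L S) (kn b n))
        + 1 / (1 + (k : ℝ)) * b ^ 2 / 16) ≤ 1 + b ^ 4 / 2 := by
    filter_upwards [eventually_ge_atTop m] with n hn
    have e1 : ‖S (xz + kn b n)‖ ^ 2 ≤ 1 + b ^ 4 / 2 := by
      refine le_trans ?_ (norm_xz_kn_sq (𝕜 := 𝕜) hb.le n)
      have := (S.le_of_opNorm_le hS (xz + kn b n))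
      rw [one_mul] at this
      gcongr
    have e2 := hQ (S (xz + kn b n))
    rw [sn_le_iff _ _ _ (norm_nonneg _), ContinuousLinearMap.coe_coe, ← hLa] at e2
    have e3 : ‖f (Q (S xz)) + (f ∘L Q ∘L S) (kn b n)‖ ^ 2 ≤ ‖Q (S (xz + kn b n))‖ ^ 2 := by
      have e4 : f (Q (S xz)) + (f ∘L Q ∘L S) (kn b n) = f (Q (S (xz + kn b n))) := by
        rw [map_add, map_add, map_add]; rfl
      rw [e4]
      have := f.le_of_opNorm_le hf1 (Q (S (xz + kn b n)))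
      rw [one_mul] at this
      gcongr
    have e5 : ‖L (S (xz + kn b n))‖ ^ 2 = ‖L (S xz)‖ ^ 2 + 2 * RCLike.re
        (((InnerProductSpace.toDual 𝕜 (HH 𝕜) (L (S xz))) ∘L L ∘L S) (kn b n))
        + ‖L (S (kn b n))‖ ^ 2 := by
      rw [map_add, map_add, norm_add_sq (𝕜 := 𝕜)]
      rfl
    have e6 : 1 / (1 + (k : ℝ)) * b ^ 2 / 16 ≤ ‖L (S (kn b n))‖ ^ 2 := by
      have g1 := coord_le (L (S (kn b n))) (Nat.pair k n)
      have g2 : ‖L (S (kn b n)) (Nat.pair k n)‖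
          = √(1 / (1 + (k : ℝ))) * ‖(Z (S (kn b n))).snd (Nat.pair k n)‖ := by
        rw [hLa, hcl_apply, Om_apply, if_pos (hn.trans (Nat.right_le_pair _ _)), norm_mul,
          RCLike.norm_ofReal, abs_of_nonneg (Real.sqrt_nonneg _), wt_pair]
      have g3 : √(1 / (1 + (k : ℝ))) * (b / 4) ≤ ‖L (S (kn b n))‖ := by
        refine le_trans ?_ g1
        rw [g2]
        exact mul_le_mul_of_nonneg_left (hlow n) (Real.sqrt_nonneg _)
      have g4 : (√(1 / (1 + (k : ℝ))) * (b / 4)) ^ 2 ≤ ‖L (S (kn b n))‖ ^ 2 := by gcongr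
      rw [mul_pow, Real.sq_sqrt (by positivity)] at g4
      linarith
    linarith
  have t5 := le_of_tendsto t3 t4
  rw [add_zero, map_zero, mul_zero, add_zero, hf, RCLike.norm_ofReal,
    abs_of_nonneg (norm_nonneg _)] at t5
  rw [sn_sq, ← hLa, ContinuousLinearMap.coe_coe]
  linarith

/-- the property fails for all operators -/
theorem not_bpb {Y : Type u} [NormedAddCommGroup Y] [NormedSpace 𝕜 Y]
    (Z : Y →L[𝕜] XX 𝕜) (G : ℕ → Y →L[𝕜] 𝕜) (A : XX 𝕜 →L[𝕜] Y)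
    (p1 : ∀ y, sn (Z : Y →ₗ[𝕜] XX 𝕜) (hcl Z 0) y ≤ ‖y‖)
    (p2 : ∀ m y, sn (G m : Y →ₗ[𝕜] 𝕜) (hcl Z m) y ≤ ‖y‖)
    (p3 : ∀ y, ∀ ε : ℝ, 0 < ε → ‖y‖ ≤ sn (Z : Y →ₗ[𝕜] XX 𝕜) (hcl Z 0) y + ε ∨
      ∃ m, ‖y‖ ≤ sn (G m : Y →ₗ[𝕜] 𝕜) (hcl Z m) y + ε)
    (p4 : ∀ x, Z (A x) = x)
    (p5 : ∀ x, ‖A x‖ ^ 2 = ‖x‖ ^ 2 + ‖Om 0 x.snd‖ ^ 2) :
    ¬ PointwiseBPB 𝕜 (XX 𝕜) Y := by
  intro hP
  obtain ⟨η, hη, hP⟩ := hP (1 / 4) (by norm_num)
  obtain ⟨k, hk⟩ := exists_nat_gt (1 / η)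
  have hk0 : (0 : ℝ) ≤ k := Nat.cast_nonneg k
  set w : ℝ := 1 / (1 + (k : ℝ)) with hw
  have w0 : 0 < w := by positivity
  have w1 : w ≤ 1 := by
    rw [hw, div_le_one (by positivity)]; linarith
  have wη : w < η := by
    rw [hw, div_lt_iff₀ (by positivity)]
    rw [div_lt_iff₀ hη] at hk
    nlinarith
  -- the operator
  set T₀ : XX 𝕜 →ₗ[𝕜] Y := (A : XX 𝕜 →ₗ[𝕜] Y) ∘ₗ TX k with hT₀
  have hT₀n : ∀ x, ‖T₀ x‖ ^ 2 = ‖x‖ ^ 2 + w * ‖x.snd‖ ^ 2 := by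
    intro x
    have : T₀ x = A (TX k x) := rfl
    rw [this, p5, norm_TX, TX_snd, Om_Jk]
  have hT₀le : ∀ x, ‖T₀ x‖ ≤ (1 + w) * ‖x‖ := by
    intro x
    rw [← sq_le_sq₀ (norm_nonneg _) (by positivity), hT₀n, mul_pow]
    have h1 := snd_le x
    have h2 : w * ‖x.snd‖ ^ 2 ≤ w * ‖x‖ ^ 2 := by gcongr
    have h3 : 0 ≤ (w + w ^ 2) * ‖x‖ ^ 2 := by positivity
    have h4 : (1 + w) ^ 2 * ‖x‖ ^ 2 = ‖x‖ ^ 2 + w * ‖x‖ ^ 2 + (w + w ^ 2) * ‖x‖ ^ 2 := by ring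
    linarith
  set T₁ : XX 𝕜 →L[𝕜] Y := T₀.mkContinuous (1 + w) hT₀le with hT₁
  have hT₁a : ∀ x, T₁ x = T₀ x := fun x => rfl
  have hT₁le : ‖T₁‖ ≤ 1 + w := LinearMap.mkContinuous_norm_le _ (by positivity) _
  have hT₁x : ‖T₁ xz‖ = 1 := by
    rw [← sq_eq_sq₀ (norm_nonneg _) zero_le_one, hT₁a, hT₀n, norm_xz]
    have : (xz : XX 𝕜).snd = 0 := rfl
    rw [this]; simp
  have hT₁ge : 1 ≤ ‖T₁‖ := by
    have := T₁.le_opNorm xz
    rwa [hT₁x, norm_xz, mul_one] at this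
  set c : ℝ := ‖T₁‖⁻¹ with hc
  have c0 : 0 < c := by positivity
  have c1 : 1 / 2 ≤ c := by
    rw [hc, le_inv_comm₀ (by norm_num) (by linarith)]
    linarith
  set T : XX 𝕜 →L[𝕜] Y := (c : 𝕜) • T₁ with hT
  have hTn : ‖T‖ = 1 := by
    rw [hT, norm_smul, RCLike.norm_ofReal, abs_of_pos c0, hc]
    exact inv_mul_cancel₀ (by linarith)
  have hTx : 1 - η < ‖T xz‖ := by
    have h1 : T xz = (c : 𝕜) • T₁ xz := rfl
    rw [h1, norm_smul, RCLike.norm_ofReal, abs_of_pos c0, hT₁x, mul_one, hc]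
    have h2 : (1 + w)⁻¹ ≤ ‖T₁‖⁻¹ := by
      apply inv_anti₀ (by linarith) hT₁le
    have h3 : 1 - w ≤ (1 + w)⁻¹ := by
      rw [← one_div, le_div_iff₀ (by linarith)]
      nlinarith
    linarith
  obtain ⟨S, hS1, hSx, hST⟩ := hP T xz hTn norm_xz hTx
  -- the perturbation size
  set b : ℝ := √w / 4 with hb
  have b0 : 0 < b := by positivity
  have b2 : b ^ 2 = w / 16 := by
    rw [hb, div_pow, Real.sq_sqrt w0.le]; norm_num
  have hZle : ∀ y, ‖Z y‖ ≤ ‖y‖ := by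
    intro y
    refine le_trans ?_ (p1 y)
    rw [← sq_le_sq₀ (norm_nonneg _) (sn_nonneg _ _ _), sn_sq]
    have : 0 ≤ ‖hcl Z 0 y‖ ^ 2 := by positivity
    rw [ContinuousLinearMap.coe_coe]
    linarith
  have hlow : ∀ n, b / 4 ≤ ‖(Z (S (kn b n))).snd (Nat.pair k n)‖ := by
    intro n
    have e1 : (Z (T (kn b n))).snd (Nat.pair k n) = (c : 𝕜) * (b : 𝕜) := by
      have h1 : T (kn b n) = (c : 𝕜) • A (TX k (kn b n)) := rfl
      rw [h1, map_smul, p4]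
      have h2 : ((c : 𝕜) • TX k (kn b n : XX 𝕜)).snd = (c : 𝕜) • Jk k (kn b n : XX 𝕜).snd := rfl
      rw [h2, lp.coeFn_smul, Pi.smul_apply, Jk_pair]
      have h3 : (kn b n : XX 𝕜).snd = lp.single 2 n (b : 𝕜) := rfl
      rw [h3, lp.single_apply_self, smul_eq_mul]
    have e2 : ‖(Z (T (kn b n))).snd (Nat.pair k n)‖ = c * b := by
      rw [e1, norm_mul, RCLike.norm_ofReal, RCLike.norm_ofReal, abs_of_pos c0, abs_of_pos b0]
    have e3 : ‖(Z ((S - T) (kn b n))).snd (Nat.pair k n)‖ ≤ 1 / 4 * b := by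
      refine (coord_le _ _).trans ((snd_le _).trans ((hZle _).trans ?_))
      refine ((S - T).le_opNorm _).trans ?_
      rw [norm_kn b0.le]
      exact mul_le_mul_of_nonneg_right hST.le b0.le
    have e4 : (Z (S (kn b n))).snd (Nat.pair k n) = (Z (T (kn b n))).snd (Nat.pair k n)
        + (Z ((S - T) (kn b n))).snd (Nat.pair k n) := by
      have h1 : S (kn b n) = T (kn b n) + (S - T) (kn b n) := by
        rw [sub_apply]; abel
      rw [h1, map_add, WithLp.add_snd, lp.coeFn_add, Pi.add_apply]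
    have e5 := norm_sub_le ((Z (S (kn b n))).snd (Nat.pair k n))
      ((Z ((S - T) (kn b n))).snd (Nat.pair k n))
    rw [e4, add_sub_cancel_right, ← e4, e2] at e5
    nlinarith
  have key : ∀ ε : ℝ, 0 < ε → ε < 1 → (1 - ε) ^ 2 + w * b ^ 2 / 16 ≤ 1 + b ^ 4 / 2 := by
    intro ε hε hε1
    rcases p3 (S xz) ε hε with h | ⟨m, h⟩
    · have h1 := lower_est Z Z 0 p1 S hS1.le k b0 hlow
      rw [hSx] at h
      have h2 : (1 - ε) ^ 2 ≤ sn (Z : Y →ₗ[𝕜] XX 𝕜) (hcl Z 0) (S xz) ^ 2 := by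
        have : 0 ≤ 1 - ε := by linarith
        have : 1 - ε ≤ sn (Z : Y →ₗ[𝕜] XX 𝕜) (hcl Z 0) (S xz) := by linarith
        gcongr
      linarith
    · have h1 := lower_est Z (G m) m (p2 m) S hS1.le k b0 hlow
      rw [hSx] at h
      have h2 : (1 - ε) ^ 2 ≤ sn (G m : Y →ₗ[𝕜] 𝕜) (hcl Z m) (S xz) ^ 2 := by
        have : 0 ≤ 1 - ε := by linarith
        have : 1 - ε ≤ sn (G m : Y →ₗ[𝕜] 𝕜) (hcl Z m) (S xz) := by linarith
        gcongr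
      linarith
  have h1 := key (w ^ 2 / 2048) (by positivity) (by nlinarith)
  have h2 : b ^ 4 = (w / 16) ^ 2 := by rw [← b2]; ring
  rw [h2, b2] at h1
  have : 0 < w ^ 2 := by positivity
  nlinarith [sq_nonneg (w ^ 2 / 2048)]

end Pool.Agent.H26.Bpb
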