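import Pool.Agent.H26.BpbBase

/-! Helper file: the recursive construction of the norm. -/

namespace Pool.Agent.H26.Bpb

open Filter Topology
open scoped ENNReal lp

universe u

instance fact4 : Fact ((1 : ℝ≥0∞) ≤ 4) := ⟨by norm_num⟩

section General

variable {𝕜 : Type u} [RCLike 𝕜] {V E F : Type u} [AddCommGroup V] [Module 𝕜 V]
  [NormedAddCommGroup E] [NormedSpace 𝕜 E] [NormedAddCommGroup F] [NormedSpace 𝕜 F]

/-- the seminorm `√(‖A v‖² + ‖B v‖²)` -/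
noncomputable def sn (A : V →ₗ[𝕜] E) (B : V →ₗ[𝕜] F) : Seminorm 𝕜 V :=
  (normSeminorm 𝕜 (WithLp 2 (E × F))).comp
    ((WithLp.linearEquiv 2 𝕜 (E × F)).symm.toLinearMap ∘ₗ (A.prod B))

theorem sn_sq (A : V →ₗ[𝕜] E) (B : V →ₗ[𝕜] F) (v : V) :
    sn A B v ^ 2 = ‖A v‖ ^ 2 + ‖B v‖ ^ 2 := by
  unfold sn
  rw [Seminorm.comp_apply, coe_normSeminorm, WithLp.prod_norm_sq_eq_of_L2]
  rfl

theorem sn_nonneg (A : V →ₗ[𝕜] E) (B : V →ₗ[𝕜] F) (v : V) : 0 ≤ sn A B v := apply_nonneg _ _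

theorem sn_le_iff (A : V →ₗ[𝕜] E) (B : V →ₗ[𝕜] F) (v : V) {c : ℝ} (hc : 0 ≤ c) :
    sn A B v ≤ c ↔ ‖A v‖ ^ 2 + ‖B v‖ ^ 2 ≤ c ^ 2 := by
  rw [← sn_sq, sq_le_sq₀ (sn_nonneg _ _ _) hc]

end General

variable (𝕜 : Type u) [RCLike 𝕜]

/-- the uniformly smooth space -/
abbrev XX := WithLp 4 (𝕜 × HH 𝕜)

/-- the underlying vector space of the range space -/
abbrev VV := XX 𝕜 × (ℕ →₀ 𝕜)

variable {𝕜}

theorem XX_norm4 (x : XX 𝕜) : ‖x‖ ^ 4 = ‖x.fst‖ ^ 4 + ‖x.snd‖ ^ 4 := by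
  have h := WithLp.prod_norm_eq_of_nat (p := 4) 4 (by norm_num) x
  rw [h, ← Real.rpow_natCast, ← Real.rpow_mul (by positivity)]
  norm_num

theorem fst_le (x : XX 𝕜) : ‖x.fst‖ ≤ ‖x‖ := by
  have h := XX_norm4 x
  have h2 : ‖x.fst‖ ^ 4 ≤ ‖x‖ ^ 4 := by
    have : 0 ≤ ‖x.snd‖ ^ 4 := by positivity
    linarith
  exact le_of_pow_le_pow_left₀ (by norm_num) (norm_nonneg _) h2

theorem snd_le (x : XX 𝕜) : ‖x.snd‖ ≤ ‖x‖ := by
  have h := XX_norm4 x
  have h2 : ‖x.snd‖ ^ 4 ≤ ‖x‖ ^ 4 := by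
    have : 0 ≤ ‖x.fst‖ ^ 4 := by positivity
    linarith
  exact le_of_pow_le_pow_left₀ (by norm_num) (norm_nonneg _) h2

/-- projection in `XX` -/
noncomputable def RX (M : ℕ) : XX 𝕜 →ₗ[𝕜] XX 𝕜 where
  toFun z := WithLp.toLp 4 (z.fst, Pr M z.snd)
  map_add' x y := by
    rw [WithLp.add_fst, WithLp.add_snd, map_add]
    rfl
  map_smul' c x := by
    rw [WithLp.smul_fst, WithLp.smul_snd, map_smul]
    rfl

@[simp] theorem RX_fst (M : ℕ) (z : XX 𝕜) : (RX M z).fst = z.fst := rfl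
@[simp] theorem RX_snd (M : ℕ) (z : XX 𝕜) : (RX M z).snd = Pr M z.snd := rfl

theorem norm_RX_le (M : ℕ) (z : XX 𝕜) : ‖RX M z‖ ≤ ‖z‖ := by
  have h2 : ‖RX M z‖ ^ 4 ≤ ‖z‖ ^ 4 := by
    rw [XX_norm4, XX_norm4, RX_fst, RX_snd]
    have := norm_Pr_le M z.snd
    gcongr
  exact le_of_pow_le_pow_left₀ (by norm_num) (norm_nonneg _) h2

/-- projection in `VV` -/
noncomputable def RV (M : ℕ) : VV 𝕜 →ₗ[𝕜] VV 𝕜 where
  toFun y := (RX M y.1, y.2.filter (· < M))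
  map_add' x y := by
    simp [Finsupp.filter_add]
  map_smul' c x := by
    simp [Finsupp.filter_smul]

@[simp] theorem RV_fst (M : ℕ) (y : VV 𝕜) : (RV M y).1 = RX M y.1 := rfl
@[simp] theorem RV_snd (M : ℕ) (y : VV 𝕜) : (RV M y).2 = y.2.filter (· < M) := rfl

theorem RV_snd_apply (M : ℕ) (y : VV 𝕜) (i : ℕ) :
    (RV M y).2 i = if i < M then y.2 i else 0 := by
  rw [RV_snd, Finsupp.filter_apply]

theorem RV_RV {m M : ℕ} (hm : m ≤ M) (y : VV 𝕜) : RV m (RV M y) = RV m y := by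
  refine Prod.ext ?_ ?_
  · apply WithLp.ofLp_injective
    refine Prod.ext rfl ?_
    exact Pr_Pr hm _
  · ext i
    rw [RV_snd_apply, RV_snd_apply, RV_snd_apply]
    by_cases hi : i < m
    · simp [hi, lt_of_lt_of_le hi hm]
    · simp [hi]

theorem RV_RV' {m M : ℕ} (hm : m ≤ M) (y : VV 𝕜) : RV M (RV m y) = RV m y := by
  refine Prod.ext ?_ ?_
  · apply WithLp.ofLp_injective
    refine Prod.ext rfl ?_
    exact Pr_Pr' hm _
  · ext i
    rw [RV_snd_apply, RV_snd_apply]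
    by_cases hi : i < m
    · simp [hi, lt_of_lt_of_le hi hm]
    · simp [hi]

/-- the first component -/
noncomputable def Zl : VV 𝕜 →ₗ[𝕜] XX 𝕜 := LinearMap.fst 𝕜 _ _

/-- the Hilbert component of `XX` -/
noncomputable def sndl : XX 𝕜 →ₗ[𝕜] HH 𝕜 where
  toFun z := z.snd
  map_add' _ _ := rfl
  map_smul' _ _ := rfl

/-- the scalar component of `XX` -/
noncomputable def fstl : XX 𝕜 →ₗ[𝕜] 𝕜 where
  toFun z := z.fst
  map_add' _ _ := rfl
  map_smul' _ _ := rfl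

/-- the Hilbert component -/
noncomputable def Hl : VV 𝕜 →ₗ[𝕜] HH 𝕜 := sndl ∘ₗ Zl

/-- coordinate functional of the finitely supported part -/
noncomputable def zet (m : ℕ) : VV 𝕜 →ₗ[𝕜] 𝕜 := Finsupp.lapply m ∘ₗ LinearMap.snd 𝕜 _ _

@[simp] theorem zet_apply (m : ℕ) (y : VV 𝕜) : zet m y = y.2 m := rfl
@[simp] theorem Zl_apply (y : VV 𝕜) : Zl y = y.1 := rfl
@[simp] theorem Hl_apply (y : VV 𝕜) : Hl y = y.1.snd := rfl

/-- coefficient space -/
abbrev Cf (𝕜 : Type u) (M : ℕ) := 𝕜 × (Fin M → 𝕜) × (Fin M → 𝕜)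

/-- functional with given coefficients -/
noncomputable def cfun {M : ℕ} (c : Cf 𝕜 M) : VV 𝕜 →ₗ[𝕜] 𝕜 where
  toFun y := c.1 * y.1.fst + (∑ j, c.2.1 j * y.1.snd j) + ∑ j, c.2.2 j * y.2 j
  map_add' x y := by
    simp only [Prod.fst_add, Prod.snd_add, WithLp.add_fst, WithLp.add_snd, lp.coeFn_add,
      Pi.add_apply, Finsupp.add_apply, mul_add, Finset.sum_add_distrib]
    ring
  map_smul' a x := by
    simp only [Prod.smul_fst, Prod.smul_snd, WithLp.smul_fst, WithLp.smul_snd, lp.coeFn_smul,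
      Pi.smul_apply, Finsupp.smul_apply, smul_eq_mul, RingHom.id_apply, mul_add, Finset.mul_sum]
    congr 1
    · congr 1
      · ring
      · refine Finset.sum_congr rfl fun j _ => ?_
        ring
    · refine Finset.sum_congr rfl fun j _ => ?_
      ring

theorem cfun_apply {M : ℕ} (c : Cf 𝕜 M) (y : VV 𝕜) :
    cfun c y = c.1 * y.1.fst + (∑ j, c.2.1 j * y.1.snd j) + ∑ j, c.2.2 j * y.2 j := rfl

theorem cfun_RV {M m : ℕ} (hM : M ≤ m) (c : Cf 𝕜 M) (y : VV 𝕜) : cfun c (RV m y) = cfun c y := by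
  rw [cfun_apply, cfun_apply]
  congr 1
  · congr 1
    refine Finset.sum_congr rfl fun j _ => ?_
    rw [RV_fst, RX_snd, Pr_apply, if_pos (lt_of_lt_of_le j.2 hM)]
  · refine Finset.sum_congr rfl fun j _ => ?_
    rw [RV_snd_apply, if_pos (lt_of_lt_of_le j.2 hM)]

/-- the size of the first coordinates -/
noncomputable def siz (M : ℕ) (y : VV 𝕜) : ℝ :=
  ‖y.1.fst‖ + (∑ j : Fin M, ‖y.1.snd j‖) + ∑ j : Fin M, ‖y.2 j‖

theorem cfun_sub_le {M : ℕ} (c c' : Cf 𝕜 M) (y : VV 𝕜) :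
    ‖cfun c y - cfun c' y‖ ≤ dist c c' * siz M y := by
  have h1 : ‖c.1 - c'.1‖ ≤ dist c c' := by
    rw [← dist_eq_norm]; exact le_max_left _ _
  have h2 : ∀ j, ‖c.2.1 j - c'.2.1 j‖ ≤ dist c c' := by
    intro j
    rw [← dist_eq_norm]
    exact (dist_le_pi_dist _ _ j).trans ((le_max_left _ _).trans (le_max_right _ _))
  have h3 : ∀ j, ‖c.2.2 j - c'.2.2 j‖ ≤ dist c c' := by
    intro j
    rw [← dist_eq_norm]
    exact (dist_le_pi_dist _ _ j).trans ((le_max_right _ _).trans (le_max_right _ _))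
  have e : cfun c y - cfun c' y = (c.1 - c'.1) * y.1.fst
      + (∑ j, (c.2.1 j - c'.2.1 j) * y.1.snd j) + ∑ j, (c.2.2 j - c'.2.2 j) * y.2 j := by
    rw [cfun_apply, cfun_apply]
    simp only [sub_mul, Finset.sum_sub_distrib]
    ring
  rw [e]
  unfold siz
  rw [mul_add, mul_add, Finset.mul_sum, Finset.mul_sum]
  refine (norm_add_le _ _).trans (add_le_add ((norm_add_le _ _).trans (add_le_add ?_ ?_)) ?_)
  · rw [norm_mul]
    exact mul_le_mul_of_nonneg_right h1 (norm_nonneg _)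
  · refine (norm_sum_le _ _).trans (Finset.sum_le_sum fun j _ => ?_)
    rw [norm_mul]
    exact mul_le_mul_of_nonneg_right (h2 j) (norm_nonneg _)
  · refine (norm_sum_le _ _).trans (Finset.sum_le_sum fun j _ => ?_)
    rw [norm_mul]
    exact mul_le_mul_of_nonneg_right (h3 j) (norm_nonneg _)

/-- vectors of the algebraic basis -/
noncomputable def bv (j : ℕ) : VV 𝕜 := (WithLp.toLp 4 (0, lp.single 2 j (1 : 𝕜)), 0)
/-- vectors of the algebraic basis -/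
noncomputable def bo : VV 𝕜 := (WithLp.toLp 4 (1, 0), 0)
/-- vectors of the algebraic basis -/
noncomputable def be (j : ℕ) : VV 𝕜 := (0, Finsupp.single j 1)

theorem Hl_bo : Hl (bo : VV 𝕜) = 0 := rfl
theorem Hl_bv (j : ℕ) : Hl (bv j : VV 𝕜) = lp.single 2 j (1 : 𝕜) := rfl
theorem Hl_be (j : ℕ) : Hl (be j : VV 𝕜) = 0 := rfl
theorem fs_bo : fstl (Zl (bo : VV 𝕜)) = 1 := rfl
theorem fs_bv (j : ℕ) : fstl (Zl (bv j : VV 𝕜)) = 0 := rfl
theorem fs_be (j : ℕ) : fstl (Zl (be j : VV 𝕜)) = 0 := rfl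
theorem zet_bo (i : ℕ) : zet i (bo : VV 𝕜) = 0 := rfl
theorem zet_bv (i j : ℕ) : zet i (bv j : VV 𝕜) = 0 := rfl
theorem zet_be (i j : ℕ) : zet i (be j : VV 𝕜) = if j = i then 1 else 0 := by
  rw [zet_apply, be]
  exact Finsupp.single_apply

theorem VV_ext {x y : VV 𝕜} (h1 : fstl (Zl x) = fstl (Zl y)) (h2 : Hl x = Hl y)
    (h3 : ∀ i, zet i x = zet i y) : x = y := by
  refine Prod.ext ?_ ?_
  · apply WithLp.ofLp_injective
    exact Prod.ext h1 h2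
  · ext i
    exact h3 i

theorem RV_eq_sum (M : ℕ) (y : VV 𝕜) :
    RV M y = y.1.fst • bo + (∑ j : Fin M, y.1.snd j • bv j.1) + ∑ j : Fin M, y.2 j • be j.1 := by
  apply VV_ext
  · simp only [map_add, map_sum, map_smul, fs_bo, fs_bv, fs_be]
    simp [fstl]
  · simp only [map_add, map_sum, map_smul, Hl_bo, Hl_bv, Hl_be]
    simp only [Hl_apply, RV_fst, RX_snd, Pr_eq_sum, smul_zero, Finset.sum_const_zero, zero_add,
      add_zero]
    rw [Finset.sum_range]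
  · intro i
    simp only [map_add, map_sum, map_smul, zet_bo, zet_bv, zet_be]
    rw [zet_apply, RV_snd_apply]
    simp only [smul_eq_mul, mul_zero, Finset.sum_const_zero, zero_add, mul_ite, mul_one]
    rw [← Finset.sum_range (fun j => if j = i then y.2 j else 0)]
    simp

/-- every functional on the first coordinates is a coefficient functional -/
theorem exists_cfun (M : ℕ) (g : VV 𝕜 →ₗ[𝕜] 𝕜) : ∃ c : Cf 𝕜 M, ∀ y, cfun c y = g (RV M y) := by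
  refine ⟨(g bo, fun j => g (bv j.1), fun j => g (be j.1)), fun y => ?_⟩
  rw [RV_eq_sum, cfun_apply]
  simp only [map_add, map_sum, map_smul, smul_eq_mul]
  congr 1
  · congr 1
    · ring
    · refine Finset.sum_congr rfl fun j _ => by ring
  · refine Finset.sum_congr rfl fun j _ => by ring

/-- the countable family of candidate functionals -/
noncomputable def dq (M i : ℕ) : VV 𝕜 →ₗ[𝕜] 𝕜 :=
  cfun (TopologicalSpace.denseSeq (Cf 𝕜 M) i)

/-- the list of candidate functionals -/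
noncomputable def dsq (m : ℕ) : VV 𝕜 →ₗ[𝕜] 𝕜 :=
  dq (Nat.unpair m).1 (Nat.unpair (Nat.unpair m).2).1

theorem dsq_RV (m : ℕ) (y : VV 𝕜) : dsq m (RV m y) = dsq m y :=
  cfun_RV (Nat.unpair_left_le m) _ _

theorem dsq_dense (M : ℕ) (g : VV 𝕜 →ₗ[𝕜] 𝕜) {δ : ℝ} (hδ : 0 < δ) (N : ℕ) :
    ∃ m, M ≤ m ∧ N ≤ m ∧ ∀ y, ‖dsq m y - g (RV M y)‖ ≤ δ * siz M y := by
  obtain ⟨c, hc⟩ := exists_cfun M g
  obtain ⟨i, hi⟩ := (TopologicalSpace.denseRange_denseSeq (Cf 𝕜 M)).exists_dist_lt c hδ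
  refine ⟨Nat.pair M (Nat.pair i N), Nat.left_le_pair _ _,
    (Nat.right_le_pair _ _).trans (Nat.right_le_pair _ _), fun y => ?_⟩
  have e : dsq (Nat.pair M (Nat.pair i N)) y
      = cfun (TopologicalSpace.denseSeq (Cf 𝕜 M) i) y := by
    unfold dsq
    rw [Nat.unpair_pair, Nat.unpair_pair]
    rfl
  rw [e, ← hc]
  have s0 : 0 ≤ siz M y := by unfold siz; positivity
  refine (cfun_sub_le _ _ _).trans (mul_le_mul_of_nonneg_right ?_ s0)
  rw [dist_comm]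
  exact hi.le

/-! the recursion -/

open Classical in
/-- the functional chosen at a step: the candidate, if it is dominated by the present seminorm -/
noncomputable def gof (m : ℕ) (p : Seminorm 𝕜 (VV 𝕜)) : VV 𝕜 →ₗ[𝕜] 𝕜 :=
  if ∀ y, ‖dsq m y‖ ≤ p y then dsq m else 0

/-- the recursively defined seminorms -/
noncomputable def nrm : ℕ → Seminorm 𝕜 (VV 𝕜)
  | 0 => sn Zl (Om 0 ∘ₗ Hl)
  | m + 1 => nrm m ⊔ sn (gof m (nrm m) + zet m) (Om m ∘ₗ Hl)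

/-- the functional chosen at a step -/
noncomputable def gg (m : ℕ) : VV 𝕜 →ₗ[𝕜] 𝕜 := gof m (nrm m)

/-- the shifted functional -/
noncomputable def GG (m : ℕ) : VV 𝕜 →ₗ[𝕜] 𝕜 := gg m + zet m

/-- the step seminorm -/
noncomputable def qn (m : ℕ) : Seminorm 𝕜 (VV 𝕜) := sn (GG m) (Om m ∘ₗ Hl)

theorem nrm_zero_sq (y : VV 𝕜) : nrm 0 y ^ 2 = ‖Zl y‖ ^ 2 + ‖Om 0 (Hl y)‖ ^ 2 := sn_sq _ _ _

theorem nrm_succ (m : ℕ) (y : VV 𝕜) : nrm (m + 1) y = max (nrm m y) (qn m y) := rfl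

theorem qn_sq (m : ℕ) (y : VV 𝕜) : qn m y ^ 2 = ‖GG m y‖ ^ 2 + ‖Om m (Hl y)‖ ^ 2 := sn_sq _ _ _

theorem GG_apply (m : ℕ) (y : VV 𝕜) : GG m y = gg m y + y.2 m := rfl

theorem gg_le (m : ℕ) (y : VV 𝕜) : ‖gg m y‖ ≤ nrm m y := by
  unfold gg gof
  split_ifs with h
  · exact h y
  · simp

theorem gg_RV (m : ℕ) (y : VV 𝕜) : gg m (RV m y) = gg m y := by
  unfold gg gof
  split_ifs with h
  · exact dsq_RV m y
  · simp

theorem gg_RV' {m M : ℕ} (hM : m ≤ M) (y : VV 𝕜) : gg m (RV M y) = gg m y := by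
  rw [← gg_RV m (RV M y), RV_RV hM, gg_RV]

theorem GG_RV {m M : ℕ} (hM : m < M) (y : VV 𝕜) : GG m (RV M y) = GG m y := by
  rw [GG_apply, GG_apply, gg_RV' hM.le, RV_snd_apply, if_pos hM]

theorem nrm_nonneg (m : ℕ) (y : VV 𝕜) : 0 ≤ nrm m y := apply_nonneg _ _
theorem qn_nonneg (m : ℕ) (y : VV 𝕜) : 0 ≤ qn m y := apply_nonneg _ _

theorem nrm_mono {m M : ℕ} (h : m ≤ M) (y : VV 𝕜) : nrm m y ≤ nrm M y := by
  induction M, h using Nat.le_induction with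
  | base => exact le_rfl
  | succ M hM ih => exact ih.trans (by rw [nrm_succ]; exact le_max_left _ _)

theorem Hl_RV (M : ℕ) (y : VV 𝕜) : Hl (RV M y) = Pr M (Hl y) := rfl

/-- L2 -/
theorem nrm_split {m M : ℕ} (h : m ≤ M) (y : VV 𝕜) :
    nrm m (RV M y) ^ 2 + ‖Om M (Hl y)‖ ^ 2 ≤ nrm m y ^ 2 := by
  induction m with
  | zero =>
    rw [nrm_zero_sq, nrm_zero_sq, Hl_RV]
    have h1 := Om_split (Nat.zero_le M) (Hl y)
    have h2 : ‖Zl (RV M y)‖ ≤ ‖Zl y‖ := norm_RX_le _ _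
    have h3 : ‖Zl (RV M y)‖ ^ 2 ≤ ‖Zl y‖ ^ 2 := by gcongr
    linarith
  | succ m ih =>
    have ih' := ih (by omega)
    rw [nrm_succ, nrm_succ]
    have h1 : qn m (RV M y) ^ 2 + ‖Om M (Hl y)‖ ^ 2 = qn m y ^ 2 := by
      rw [qn_sq, qn_sq, Hl_RV, GG_RV (by omega), add_assoc, Om_split (by omega)]
    rcases le_total (nrm m (RV M y)) (qn m (RV M y)) with h2 | h2
    · rw [max_eq_right h2, h1]
      have := le_max_right (nrm m y) (qn m y)
      have := qn_nonneg m y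
      gcongr
    · rw [max_eq_left h2]
      refine ih'.trans ?_
      have := le_max_left (nrm m y) (qn m y)
      have := nrm_nonneg m y
      gcongr

theorem nrm_RV_le {m M : ℕ} (h : m ≤ M) (y : VV 𝕜) : nrm m (RV M y) ≤ nrm m y := by
  have := nrm_split h y
  have h2 : nrm m (RV M y) ^ 2 ≤ nrm m y ^ 2 := by
    have : 0 ≤ ‖Om M (Hl y)‖ ^ 2 := by positivity
    linarith
  exact (sq_le_sq₀ (nrm_nonneg _ _) (nrm_nonneg _ _)).1 h2

/-- L3 -/
theorem qn_le {m : ℕ} {y : VV 𝕜} (h : y.2 m = 0) : qn m y ≤ nrm m y := by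
  have h1 : qn m y ^ 2 ≤ nrm m y ^ 2 := by
    rw [qn_sq, GG_apply, h, add_zero]
    refine le_trans ?_ (nrm_split (le_refl m) y)
    have h2 : ‖gg m y‖ ≤ nrm m (RV m y) := by
      rw [← gg_RV]; exact gg_le _ _
    gcongr
  exact (sq_le_sq₀ (qn_nonneg _ _) (nrm_nonneg _ _)).1 h1

/-- L4 -/
theorem nrm_stable {M : ℕ} {y : VV 𝕜} (hy : ∀ i, M ≤ i → y.2 i = 0) {m : ℕ} (hm : M ≤ m) :
    nrm m y = nrm M y := by
  induction m, hm using Nat.le_induction with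
  | base => rfl
  | succ m hM ih => rw [nrm_succ, max_eq_left (qn_le (hy m hM)), ih]

end Pool.Agent.H26.Bpb
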