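import Pool.Agent.H26.BpbCompl
import Pool.Agent.H26.BpbDefs

/-! Helper file: smoothness of the domain, the compact version of the property. -/

namespace Pool.Agent.H26.Bpb

open Filter Topology
open scoped ENNReal lp

universe u

variable {𝕜 : Type u} [RCLike 𝕜]

theorem quart_add {E : Type u} [NormedAddCommGroup E] [InnerProductSpace 𝕜 E] (h k : E) :
    ‖h + k‖ ^ 4 ≤ ‖h‖ ^ 4 + 4 * (‖h‖ ^ 2 * RCLike.re (inner 𝕜 h k))
      + (‖k‖ ^ 4 + 6 * (‖h‖ ^ 2 * ‖k‖ ^ 2) + 4 * (‖h‖ * ‖k‖ ^ 3)) := by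
  have h1 : ‖h + k‖ ^ 2 = ‖h‖ ^ 2 + 2 * RCLike.re (inner 𝕜 h k) + ‖k‖ ^ 2 :=
    norm_add_sq (𝕜 := 𝕜) h k
  have h2 : |RCLike.re (inner 𝕜 h k)| ≤ ‖h‖ * ‖k‖ :=
    (RCLike.abs_re_le_norm _).trans (norm_inner_le_norm h k)
  set s := RCLike.re (inner 𝕜 h k) with hs
  have h3 : ‖h + k‖ ^ 4 = (‖h‖ ^ 2 + 2 * s + ‖k‖ ^ 2) ^ 2 := by
    rw [← h1]; ring
  rw [h3]
  have h4 : s ^ 2 ≤ (‖h‖ * ‖k‖) ^ 2 := by
    rw [← sq_abs s]
    gcongr
  have h5 : s * ‖k‖ ^ 2 ≤ ‖h‖ * ‖k‖ * ‖k‖ ^ 2 :=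
    mul_le_mul_of_nonneg_right ((le_abs_self s).trans h2) (by positivity)
  nlinarith

/-- the linear term -/
noncomputable def lin (x v : XX 𝕜) : ℝ :=
  ‖x.fst‖ ^ 2 * RCLike.re (inner 𝕜 x.fst v.fst) + ‖x.snd‖ ^ 2 * RCLike.re (inner 𝕜 x.snd v.snd)

theorem abs_lin_le (x v : XX 𝕜) (hx : ‖x‖ = 1) : |lin x v| ≤ 2 * ‖v‖ := by
  unfold lin
  have a1 : ‖x.fst‖ ≤ 1 := (fst_le x).trans hx.le
  have a2 : ‖x.snd‖ ≤ 1 := (snd_le x).trans hx.le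
  have h1 : |RCLike.re (inner 𝕜 x.fst v.fst)| ≤ ‖v‖ :=
    ((RCLike.abs_re_le_norm _).trans (norm_inner_le_norm _ _)).trans
      ((mul_le_mul a1 (fst_le v) (norm_nonneg _) zero_le_one).trans (by rw [one_mul]))
  have h2 : |RCLike.re (inner 𝕜 x.snd v.snd)| ≤ ‖v‖ :=
    ((RCLike.abs_re_le_norm _).trans (norm_inner_le_norm _ _)).trans
      ((mul_le_mul a2 (snd_le v) (norm_nonneg _) zero_le_one).trans (by rw [one_mul]))
  refine (abs_add_le _ _).trans ?_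
  rw [abs_mul, abs_mul, abs_of_nonneg (by positivity : 0 ≤ ‖x.fst‖ ^ 2),
    abs_of_nonneg (by positivity : 0 ≤ ‖x.snd‖ ^ 2)]
  have h3 : ‖x.fst‖ ^ 2 * |RCLike.re (inner 𝕜 x.fst v.fst)| ≤ 1 * ‖v‖ :=
    mul_le_mul (pow_le_one₀ (norm_nonneg _) a1) h1 (abs_nonneg _) zero_le_one
  have h4 : ‖x.snd‖ ^ 2 * |RCLike.re (inner 𝕜 x.snd v.snd)| ≤ 1 * ‖v‖ :=
    mul_le_mul (pow_le_one₀ (norm_nonneg _) a2) h2 (abs_nonneg _) zero_le_one
  linarith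

theorem XX_quart (x v : XX 𝕜) (hx : ‖x‖ = 1) (hv : ‖v‖ ≤ 1 / 2) :
    ‖x + v‖ ≤ 1 + lin x v + 11 / 2 * ‖v‖ ^ 2 := by
  have a1 : ‖x.fst‖ ≤ 1 := (fst_le x).trans hx.le
  have a2 : ‖x.snd‖ ≤ 1 := (snd_le x).trans hx.le
  have b1 := fst_le v
  have b2 := snd_le v
  have t0 := norm_nonneg v
  set t := ‖v‖ with ht
  have q : ∀ a c : ℝ, 0 ≤ a → 0 ≤ c → a ≤ 1 → c ≤ t →
      6 * (a ^ 2 * c ^ 2) + 4 * (a * c ^ 3) ≤ 6 * t ^ 2 + 4 * t ^ 3 := by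
    intro a c ha hc ha1 hct
    have e1 : a ^ 2 * c ^ 2 ≤ 1 * t ^ 2 := by
      have : a ^ 2 ≤ 1 := pow_le_one₀ ha ha1
      gcongr
    have e2 : a * c ^ 3 ≤ 1 * t ^ 3 := by gcongr
    linarith
  have h4 : ‖x + v‖ ^ 4 ≤ 1 + 4 * lin x v + 22 * t ^ 2 := by
    rw [XX_norm4, WithLp.add_fst, WithLp.add_snd]
    have f1 := quart_add (𝕜 := 𝕜) x.fst v.fst
    have f2 := quart_add (𝕜 := 𝕜) x.snd v.snd
    have f3 := q _ _ (norm_nonneg _) (norm_nonneg _) a1 b1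
    have f4 := q _ _ (norm_nonneg _) (norm_nonneg _) a2 b2
    have f5 : ‖x.fst‖ ^ 4 + ‖x.snd‖ ^ 4 = 1 := by rw [← XX_norm4, hx]; norm_num
    have f6 : ‖v.fst‖ ^ 4 + ‖v.snd‖ ^ 4 = t ^ 4 := (XX_norm4 v).symm
    unfold lin
    have g1 : t ^ 4 ≤ t ^ 2 := by
      have : t ^ 4 = t ^ 2 * t ^ 2 := by ring
      rw [this]
      exact mul_le_of_le_one_left (by positivity) (pow_le_one₀ t0 (by linarith))
    have g2 : t ^ 3 ≤ t ^ 2 * (1 / 2) := by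
      have : t ^ 3 = t ^ 2 * t := by ring
      rw [this]
      exact mul_le_mul_of_nonneg_left hv (by positivity)
    nlinarith
  have h5 := abs_lin_le x v hx
  have h6 := neg_le_of_abs_le h5
  set r := lin x v + 11 / 2 * t ^ 2 with hr
  have h7 : 0 ≤ 1 + r := by
    have : 0 ≤ t ^ 2 := by positivity
    linarith
  have h8 : ‖x + v‖ ^ 4 ≤ (1 + r) ^ 4 := by
    have : 1 + 4 * r ≤ (1 + r) ^ 4 := by
      have : (1 + r) ^ 4 - (1 + 4 * r) = r ^ 2 * ((r + 2) ^ 2 + 2) := by ring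
      have : 0 ≤ r ^ 2 * ((r + 2) ^ 2 + 2) := by positivity
      linarith
    refine h4.trans (le_trans (le_of_eq ?_) this)
    rw [hr]; ring
  have h9 := le_of_pow_le_pow_left₀ (by norm_num) h7 h8
  rw [hr] at h9
  linarith

theorem lin_neg (x v : XX 𝕜) : lin x (-v) = - lin x v := by
  unfold lin
  rw [WithLp.neg_fst, WithLp.neg_snd, inner_neg_right, inner_neg_right, map_neg, map_neg]
  ring

theorem XX_smooth (x v : XX 𝕜) (hx : ‖x‖ = 1) (hv : ‖v‖ ≤ 1 / 2) :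
    ‖x + v‖ + ‖x - v‖ ≤ 2 + 11 * ‖v‖ ^ 2 := by
  have h1 := XX_quart x v hx hv
  have h2 := XX_quart x (-v) hx (by rwa [norm_neg])
  rw [lin_neg, norm_neg, ← sub_eq_add_neg] at h2
  linarith

theorem dual_close (x₀ : XX 𝕜) (hx : ‖x₀‖ = 1) (f f₀ : XX 𝕜 →L[𝕜] 𝕜) (hf : ‖f‖ ≤ 1)
    (hf₀ : ‖f₀‖ ≤ 1) (h₀ : f₀ x₀ = 1) {t : ℝ} (ht : 0 < t) (ht2 : t ≤ 1 / 2)
    (h : 1 - t ^ 2 ≤ RCLike.re (f x₀)) : ‖f - f₀‖ ≤ 12 * t := by
  have key : ∀ v, ‖v‖ ≤ t → RCLike.re ((f - f₀) v) ≤ 12 * t ^ 2 := by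
    intro v hv
    have h1 := XX_smooth x₀ v hx (hv.trans ht2)
    have h2 : RCLike.re (f (x₀ + v)) ≤ ‖x₀ + v‖ := by
      refine (RCLike.re_le_norm _).trans ((f.le_of_opNorm_le hf _).trans (by rw [one_mul]))
    have h3 : RCLike.re (f₀ (x₀ - v)) ≤ ‖x₀ - v‖ := by
      refine (RCLike.re_le_norm _).trans ((f₀.le_of_opNorm_le hf₀ _).trans (by rw [one_mul]))
    rw [map_add, map_add] at h2
    rw [map_sub, map_sub, h₀, RCLike.one_re] at h3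
    rw [sub_apply, map_sub]
    have h4 : ‖v‖ ^ 2 ≤ t ^ 2 := by gcongr
    linarith
  refine ContinuousLinearMap.opNorm_le_bound _ (by positivity) fun x => ?_
  rcases eq_or_ne x 0 with rfl | hx0
  · simp
  have hxn : 0 < ‖x‖ := norm_pos_iff.2 hx0
  set w := (f - f₀) x with hw
  rcases eq_or_ne w 0 with hw0 | hw0
  · rw [hw0, norm_zero]; positivity
  have hwn : 0 < ‖w‖ := norm_pos_iff.2 hw0
  set c : 𝕜 := ((t / ‖x‖ / ‖w‖ : ℝ) : 𝕜) * (starRingEnd 𝕜) w with hc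
  have hcn : ‖c • x‖ ≤ t := by
    rw [norm_smul, hc, norm_mul, RCLike.norm_ofReal, RCLike.norm_conj,
      abs_of_nonneg (by positivity)]
    apply le_of_eq
    field_simp
  have h5 := key (c • x) hcn
  rw [map_smul, ← hw, smul_eq_mul, hc, mul_assoc, RCLike.conj_mul, ← RCLike.ofReal_pow,
    ← RCLike.ofReal_mul, RCLike.ofReal_re] at h5
  have h6 : t / ‖x‖ / ‖w‖ * ‖w‖ ^ 2 = t * (‖w‖ / ‖x‖) := by field_simp
  rw [h6, show 12 * t ^ 2 = t * (12 * t) by ring] at h5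
  have h7 := le_of_mul_le_mul_left h5 ht
  rwa [div_le_iff₀ hxn] at h7

/-- approximation of a compact operator -/
theorem compact_approx {X Y : Type u} [NormedAddCommGroup X] [NormedSpace 𝕜 X]
    [NormedAddCommGroup Y] [NormedSpace 𝕜 Y] (R : ℕ → Y →L[𝕜] Y) (hR : ∀ M y, ‖R M y‖ ≤ ‖y‖)
    (hlim : ∀ y, Tendsto (fun M => R M y) atTop (𝓝 y)) (T : X →L[𝕜] Y)
    (hT : IsCompactOperator T) {δ : ℝ} (hδ : 0 < δ) : ∃ M, ‖R M ∘L T - T‖ ≤ δ := by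
  obtain ⟨K, hK, hTK⟩ := IsCompactOperator.image_closedBall_subset_compact
    (f := (T : X →ₗ[𝕜] Y)) hT 1
  obtain ⟨s, hsK, hsf, hs⟩ := hK.finite_cover_balls (show 0 < δ / 3 by positivity)
  have h1 : ∀ᶠ M in atTop, ∀ c ∈ s, ‖R M c - c‖ < δ / 3 := by
    rw [eventually_all_finite hsf]
    intro c _
    have := (tendsto_iff_norm_sub_tendsto_zero.1 (hlim c))
    exact this.eventually (gt_mem_nhds (show (0 : ℝ) < δ / 3 by positivity))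
  obtain ⟨M, hM⟩ := h1.exists
  refine ⟨M, ContinuousLinearMap.opNorm_le_of_unit_norm hδ.le fun x hx => ?_⟩
  have h2 : T x ∈ K := hTK ⟨x, by simp [hx], rfl⟩
  obtain ⟨c, hc, hxc⟩ := Set.mem_iUnion₂.1 (hs h2)
  rw [Metric.mem_ball, dist_eq_norm] at hxc
  have h3 := hM c hc
  have h4 : (R M ∘L T - T) x = R M (T x - c) + (R M c - c) - (T x - c) := by
    rw [sub_apply, ContinuousLinearMap.comp_apply, map_sub]
    abel
  rw [h4]
  have h5 := norm_sub_le (R M (T x - c) + (R M c - c)) (T x - c)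
  have h6 := norm_add_le (R M (T x - c)) (R M c - c)
  have h7 := hR M (T x - c)
  linarith

/-- the compact version of the property holds -/
theorem compact_pos {Y : Type u} [NormedAddCommGroup Y] [NormedSpace 𝕜 Y] (R : ℕ → Y →L[𝕜] Y)
    (hR : ∀ M y, ‖R M y‖ ≤ ‖y‖) (hlim : ∀ y, Tendsto (fun M => R M y) atTop (𝓝 y))
    (hex : ∀ M (g : Y →L[𝕜] 𝕜), ‖g‖ ≤ 1 → ∀ δ : ℝ, 0 < δ → ∃ (g' : Y →L[𝕜] 𝕜) (e : Y),
      ‖e‖ ≤ 1 ∧ ‖g'‖ ≤ 1 ∧ (∀ y, ‖g' y - g (R M y)‖ ≤ δ * ‖y‖) ∧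
      ∀ y t, ‖R M y + t • e‖ = max ‖R M y‖ ‖g' (R M y) + t‖) :
    PointwiseBPBCompact 𝕜 (XX 𝕜) Y := by
  intro ε hε
  set τ : ℝ := min (ε / 50) (1 / 4) with hτ
  have τ0 : 0 < τ := by positivity
  have τ1 : τ ≤ ε / 50 := min_le_left _ _
  have τ2 : τ ≤ 1 / 4 := min_le_right _ _
  refine ⟨τ ^ 2, by positivity, fun T x₀ hTc hT hx hTx => ?_⟩
  obtain ⟨M, hM⟩ := compact_approx R hR hlim T hTc (show 0 < τ ^ 2 by positivity)
  set T' := R M ∘L T with hT'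
  have hTx_le : ∀ x, ‖T x‖ ≤ ‖x‖ := fun x => (T.le_of_opNorm_le hT.le x).trans (by rw [one_mul])
  have hT'x_le : ∀ x, ‖T' x‖ ≤ ‖x‖ := fun x => (hR M (T x)).trans (hTx_le x)
  obtain ⟨g, hg1, hg⟩ := exists_dual_vector'' 𝕜 (T' x₀)
  obtain ⟨g', e, he, hg', hgg, hmax⟩ := hex M g hg1 (τ ^ 2) (by positivity)
  obtain ⟨f₀, hf₀, hf₀x⟩ := exists_dual_vector'' 𝕜 x₀
  rw [hx, RCLike.ofReal_one] at hf₀x
  have hfn : ‖g' ∘L T'‖ ≤ 1 := by
    refine ContinuousLinearMap.opNorm_le_bound _ zero_le_one fun x => ?_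
    rw [ContinuousLinearMap.comp_apply]
    exact (g'.le_of_opNorm_le hg' _).trans (mul_le_mul_of_nonneg_left (hT'x_le x) zero_le_one)
  have hdiff : ‖T' x₀ - T x₀‖ ≤ τ ^ 2 := by
    have := (T' - T).le_of_opNorm_le hM x₀
    rwa [hx, mul_one] at this
  have hre : 1 - (2 * τ) ^ 2 ≤ RCLike.re ((g' ∘L T') x₀) := by
    rw [ContinuousLinearMap.comp_apply]
    have h1 : ‖g' (T x₀) - g (T' x₀)‖ ≤ τ ^ 2 := by
      have h := hgg (T x₀)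
      refine h.trans ((mul_le_mul_of_nonneg_left (hTx_le x₀) (by positivity)).trans ?_)
      rw [hx, mul_one]
    have h2 : ‖g' (T' x₀ - T x₀)‖ ≤ τ ^ 2 :=
      (g'.le_of_opNorm_le hg' _).trans (by rw [one_mul]; exact hdiff)
    have h3 : g' (T' x₀) = g (T' x₀) + (g' (T x₀) - g (T' x₀)) + g' (T' x₀ - T x₀) := by
      rw [map_sub g']; ring
    have h0 : RCLike.re (g (T' x₀)) = ‖T' x₀‖ := by rw [hg, RCLike.ofReal_re]
    rw [h3, map_add, map_add, h0]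
    have h4 := neg_le_of_abs_le (RCLike.abs_re_le_norm (g' (T x₀) - g (T' x₀)))
    have h5 := neg_le_of_abs_le (RCLike.abs_re_le_norm (g' (T' x₀ - T x₀)))
    have h6 : ‖T x₀‖ ≤ ‖T' x₀‖ + ‖T' x₀ - T x₀‖ := by
      have := norm_sub_le (T' x₀) (T' x₀ - T x₀)
      simpa using this
    nlinarith
  have hclose : ‖g' ∘L T' - f₀‖ ≤ 12 * (2 * τ) :=
    dual_close x₀ hx _ f₀ hfn hf₀ hf₀x (by positivity) (by linarith) hre
  set u : XX 𝕜 →L[𝕜] 𝕜 := f₀ - g' ∘L T' with hu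
  set S : XX 𝕜 →L[𝕜] Y := T' + u.smulRight e with hS
  have hSx : ∀ x, ‖S x‖ = max ‖T' x‖ ‖f₀ x‖ := by
    intro x
    have h1 : S x = R M (T x) + u x • e := rfl
    rw [h1, hmax]
    have h2 : g' (R M (T x)) + u x = f₀ x := by
      have : u x = f₀ x - g' (R M (T x)) := rfl
      rw [this]; ring
    rw [h2]
    rfl
  have hSle : ‖S‖ ≤ 1 := by
    refine ContinuousLinearMap.opNorm_le_bound _ zero_le_one fun x => ?_
    rw [hSx, one_mul]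
    exact max_le (hT'x_le x) ((f₀.le_of_opNorm_le hf₀ x).trans (by rw [one_mul]))
  have hSx₀ : ‖S x₀‖ = 1 := by
    rw [hSx, hf₀x, norm_one]
    exact max_eq_right ((hT'x_le x₀).trans hx.le)
  refine ⟨S, ?_, le_antisymm hSle ?_, hSx₀, ?_⟩
  · refine IsCompactOperator.add (hTc.clm_comp (R M)) ?_
    have h1 : IsCompactOperator (ContinuousLinearMap.toSpanSingleton 𝕜 e) :=
      isCompactOperator_of_locallyCompactSpace_rng _
    exact h1.comp_clm u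
  · have := S.le_opNorm x₀
    rwa [hSx₀, hx, mul_one] at this
  · have h1 : S - T = (T' - T) + u.smulRight e := by rw [hS]; abel
    rw [h1]
    refine (norm_add_le _ _).trans_lt ?_
    have h2 : ‖u.smulRight e‖ ≤ 24 * τ := by
      rw [ContinuousLinearMap.norm_smulRight_apply]
      have h3 : ‖u‖ ≤ 24 * τ := by
        rw [hu, norm_sub_rev]; linarith
      calc ‖u‖ * ‖e‖ ≤ (24 * τ) * 1 := mul_le_mul h3 he (norm_nonneg _) (by positivity)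
        _ = 24 * τ := mul_one _
    have h4 : τ ^ 2 ≤ τ * 1 := by
      rw [sq]; exact mul_le_mul_of_nonneg_left (by linarith) τ0.le
    linarith

end Pool.Agent.H26.Bpb
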