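import Pool.Agent.H26.BpbNorm

/-! Helper file: the range space. -/

namespace Pool.Agent.H26.Bpb

open Filter Topology
open scoped ENNReal lp

universe u

variable {𝕜 : Type u} [RCLike 𝕜]

/-- bound for the support -/
noncomputable def bd (y : VV 𝕜) : ℕ := y.2.support.sup (fun i => i + 1)

theorem bd_spec (y : VV 𝕜) (i : ℕ) (hi : bd y ≤ i) : y.2 i = 0 := by
  by_contra h
  have h1 : i ∈ y.2.support := Finsupp.mem_support_iff.2 h
  have h2 : i + 1 ≤ bd y := Finset.le_sup (f := fun i => i + 1) h1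
  omega

theorem nrm_bd {y : VV 𝕜} {m : ℕ} (hm : bd y ≤ m) : nrm m y = nrm (bd y) y :=
  nrm_stable (bd_spec y) hm

/-- the final norm -/
noncomputable def nn : Seminorm 𝕜 (VV 𝕜) :=
  Seminorm.of (fun y => nrm (bd y) y)
    (fun x y => by
      set m := max (bd x) (max (bd y) (bd (x + y)))
      rw [← nrm_bd (y := x) (m := m) (by omega), ← nrm_bd (y := y) (m := m) (by omega),
        ← nrm_bd (y := x + y) (m := m) (by omega)]
      exact map_add_le_add _ _ _)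
    (fun a x => by
      set m := max (bd x) (bd (a • x))
      rw [← nrm_bd (y := x) (m := m) (by omega), ← nrm_bd (y := a • x) (m := m) (by omega)]
      exact map_smul_eq_mul _ _ _)

theorem nn_eq {M : ℕ} {y : VV 𝕜} (hy : ∀ i, M ≤ i → y.2 i = 0) : nn y = nrm M y := by
  change nrm (bd y) y = nrm M y
  rcases le_total M (bd y) with h | h
  · exact nrm_stable hy h
  · exact (nrm_bd h).symm

theorem nrm_le_nn (m : ℕ) (y : VV 𝕜) : nrm m y ≤ nn y := by
  change nrm m y ≤ nrm (bd y) y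
  rcases le_total m (bd y) with h | h
  · exact nrm_mono h y
  · exact (nrm_bd h).le

theorem qn_le_nn (m : ℕ) (y : VV 𝕜) : qn m y ≤ nn y := by
  refine le_trans ?_ (nrm_le_nn (m + 1) y)
  rw [nrm_succ]
  exact le_max_right _ _

theorem nn_nonneg (y : VV 𝕜) : 0 ≤ nn y := apply_nonneg _ _

theorem nrm_attained (m : ℕ) (y : VV 𝕜) : nrm m y = nrm 0 y ∨ ∃ j, nrm m y = qn j y := by
  induction m with
  | zero => exact Or.inl rfl
  | succ m ih =>
    rw [nrm_succ]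
    rcases le_total (nrm m y) (qn m y) with h | h
    · rw [max_eq_right h]; exact Or.inr ⟨m, rfl⟩
    · rw [max_eq_left h]; exact ih

theorem nn_attained (y : VV 𝕜) : nn y = nrm 0 y ∨ ∃ j, nn y = qn j y := nrm_attained _ _

theorem RV_supp (M : ℕ) (y : VV 𝕜) (i : ℕ) (hi : M ≤ i) : (RV M y).2 i = 0 := by
  rw [RV_snd_apply, if_neg (by omega)]

theorem nn_RV_le' (M : ℕ) (y : VV 𝕜) : nn (RV M y) ≤ nrm M y := by
  rw [nn_eq (RV_supp M y)]
  exact nrm_RV_le le_rfl y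

theorem nn_RV_le (M : ℕ) (y : VV 𝕜) : nn (RV M y) ≤ nn y :=
  (nn_RV_le' M y).trans (nrm_le_nn _ _)

/-- the inclusion of the first component -/
noncomputable def inX : XX 𝕜 →ₗ[𝕜] VV 𝕜 := LinearMap.inl 𝕜 _ _

theorem nn_inX (z : XX 𝕜) : nn (inX z) = nrm 0 (inX z) := nn_eq (fun _ _ => rfl)

theorem norm_Zl_le (y : VV 𝕜) : ‖Zl y‖ ≤ nn y := by
  refine le_trans ?_ (nrm_le_nn 0 y)
  rw [← sq_le_sq₀ (norm_nonneg _) (nrm_nonneg _ _), nrm_zero_sq]
  have : 0 ≤ ‖Om 0 (Hl y)‖ ^ 2 := by positivity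
  linarith

theorem norm_GG_le (m : ℕ) (y : VV 𝕜) : ‖GG m y‖ ≤ nn y := by
  refine le_trans ?_ (qn_le_nn m y)
  rw [← sq_le_sq₀ (norm_nonneg _) (qn_nonneg _ _), qn_sq]
  have : 0 ≤ ‖Om m (Hl y)‖ ^ 2 := by positivity
  linarith

theorem norm_gg_le (m : ℕ) (y : VV 𝕜) : ‖gg m y‖ ≤ nn y := (gg_le m y).trans (nrm_le_nn _ _)

theorem norm_zet_le (m : ℕ) (y : VV 𝕜) : ‖y.2 m‖ ≤ 2 * nn y := by
  have h : y.2 m = GG m y - gg m y := by rw [GG_apply]; ring
  rw [h]
  refine (norm_sub_le _ _).trans ?_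
  have := norm_GG_le m y
  have := norm_gg_le m y
  linarith

theorem siz_le (M : ℕ) (y : VV 𝕜) : siz M y ≤ (1 + 3 * M) * nn y := by
  unfold siz
  have h0 := norm_Zl_le y
  have h1 : ‖y.1.fst‖ ≤ nn y := (fst_le _).trans h0
  have h2 : ∑ j : Fin M, ‖y.1.snd j‖ ≤ M * nn y := by
    have : ∀ j ∈ (Finset.univ : Finset (Fin M)), ‖y.1.snd j‖ ≤ nn y := fun j _ =>
      (coord_le _ _).trans ((snd_le _).trans h0)
    simpa using Finset.sum_le_sum this
  have h3 : ∑ j : Fin M, ‖y.2 j‖ ≤ M * (2 * nn y) := by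
    have : ∀ j ∈ (Finset.univ : Finset (Fin M)), ‖y.2 j‖ ≤ 2 * nn y := fun j _ =>
      norm_zet_le _ _
    simpa using Finset.sum_le_sum this
  linarith

theorem siz_RV (M : ℕ) (y : VV 𝕜) : siz M (RV M y) = siz M y := by
  unfold siz
  congr 1
  · congr 1
    refine Finset.sum_congr rfl fun j _ => ?_
    rw [RV_fst, RX_snd, Pr_apply, if_pos j.2]
  · refine Finset.sum_congr rfl fun j _ => ?_
    rw [RV_snd_apply, if_pos j.2]

theorem gg_dense (M : ℕ) (g : VV 𝕜 →ₗ[𝕜] 𝕜) (hg : ∀ y, ‖g y‖ ≤ nn y) {δ : ℝ} (hδ : 0 < δ)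
    (hδ1 : δ < 1) : ∃ m, M ≤ m ∧ ∀ y, ‖gg m y - g (RV M y)‖ ≤ δ * nn y := by
  set δ₁ := δ / 2 with hδ₁
  set δ₂ := δ₁ / (1 + 3 * M) with hδ₂
  have hM : (0 : ℝ) < 1 + 3 * M := by positivity
  have p1 : 0 < δ₁ := by positivity
  have p2 : 0 < δ₂ := by positivity
  obtain ⟨m, hm, -, hd⟩ := dsq_dense M (((1 - δ₁ : ℝ) : 𝕜) • g) p2 0
  have hd2 : ∀ y, ‖dsq m y - ((1 - δ₁ : ℝ) : 𝕜) * g (RV M y)‖ ≤ δ₁ * nn (RV M y) := by
    intro y
    refine (hd y).trans ?_
    rw [← siz_RV]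
    refine (mul_le_mul_of_nonneg_left (siz_le M _) p2.le).trans (le_of_eq ?_)
    rw [← mul_assoc, hδ₂, div_mul_cancel₀ _ hM.ne']
  have hval : ∀ y : VV 𝕜, ‖dsq m y‖ ≤ nrm m y := by
    intro y
    have h1 : ‖dsq m y‖ ≤ ‖dsq m y - ((1 - δ₁ : ℝ) : 𝕜) * g (RV M y)‖
        + ‖((1 - δ₁ : ℝ) : 𝕜) * g (RV M y)‖ := by
      simpa using norm_add_le (dsq m y - ((1 - δ₁ : ℝ) : 𝕜) * g (RV M y))
        (((1 - δ₁ : ℝ) : 𝕜) * g (RV M y))
    have h2 : ‖((1 - δ₁ : ℝ) : 𝕜) * g (RV M y)‖ ≤ (1 - δ₁) * nn (RV M y) := by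
      rw [norm_mul, RCLike.norm_ofReal, abs_of_nonneg (by linarith)]
      exact mul_le_mul_of_nonneg_left (hg _) (by linarith)
    have h3 := hd2 y
    have h4 : nn (RV M y) ≤ nrm m y := (nn_RV_le' M y).trans (nrm_mono hm y)
    linarith
  have hgg : (gg m : VV 𝕜 →ₗ[𝕜] 𝕜) = dsq m := by
    unfold gg gof
    rw [if_pos hval]
  refine ⟨m, hm, fun y => ?_⟩
  rw [hgg]
  have h1 : dsq m y - g (RV M y) = (dsq m y - ((1 - δ₁ : ℝ) : 𝕜) * g (RV M y))
      - ((δ₁ : ℝ) : 𝕜) * g (RV M y) := by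
    push_cast
    ring
  rw [h1]
  refine (norm_sub_le _ _).trans ?_
  have h2 := hd2 y
  have h3 : ‖((δ₁ : ℝ) : 𝕜) * g (RV M y)‖ ≤ δ₁ * nn (RV M y) := by
    rw [norm_mul, RCLike.norm_ofReal, abs_of_nonneg p1.le]
    exact mul_le_mul_of_nonneg_left (hg _) p1.le
  have h4 := nn_RV_le M y
  have h5 : δ₁ * nn (RV M y) ≤ δ₁ * nn y := mul_le_mul_of_nonneg_left h4 p1.le
  have h6 : δ * nn y = δ₁ * nn y + δ₁ * nn y := by rw [hδ₁]; ring
  linarith

/-- the norm does not see later coordinates -/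
theorem nrm_indep {m : ℕ} {x y : VV 𝕜} (h1 : x.1 = y.1) (h2 : ∀ i < m, x.2 i = y.2 i) :
    nrm m x = nrm m y := by
  have hR : ∀ j ≤ m, RV j x = RV j y := by
    intro j hj
    refine Prod.ext ?_ ?_
    · rw [RV_fst, RV_fst, h1]
    · ext i
      rw [RV_snd_apply, RV_snd_apply]
      split_ifs with h
      · exact h2 i (by omega)
      · rfl
  have hH : Hl x = Hl y := by rw [Hl_apply, Hl_apply, h1]
  have : ∀ j ≤ m, nrm j x = nrm j y := by
    intro j
    induction j with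
    | zero =>
      intro _
      rw [← sq_eq_sq₀ (nrm_nonneg _ _) (nrm_nonneg _ _), nrm_zero_sq, nrm_zero_sq, hH,
        Zl_apply, Zl_apply, h1]
    | succ j ih =>
      intro hj
      rw [nrm_succ, nrm_succ, ih (by omega)]
      congr 1
      rw [← sq_eq_sq₀ (qn_nonneg _ _) (qn_nonneg _ _), qn_sq, qn_sq, hH, GG_apply, GG_apply,
        ← gg_RV, hR j (by omega), gg_RV, h2 j (by omega)]
  exact this m le_rfl

/-- L9 -/
theorem nn_add {M m : ℕ} (hM : M ≤ m) (y : VV 𝕜) (t : 𝕜) :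
    nn (RV M y + t • be m) = max (nn (RV M y)) ‖gg m (RV M y) + t‖ := by
  have hs : ∀ i, m + 1 ≤ i → (RV M y + t • be m).2 i = 0 := by
    intro i hi
    rw [Prod.snd_add, Finsupp.add_apply, RV_supp M y i (by omega), zero_add, Prod.smul_snd,
      Finsupp.smul_apply]
    have : (be m : VV 𝕜).2 i = 0 := by
      have := zet_be (𝕜 := 𝕜) i m
      rw [zet_apply] at this
      rw [this, if_neg (by omega)]
    rw [this, smul_zero]
  rw [nn_eq hs, nrm_succ]
  have h1 : nrm m (RV M y + t • be m) = nrm m (RV M y) := by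
    refine nrm_indep ?_ ?_
    · rw [Prod.fst_add, Prod.smul_fst]
      have : (be m : VV 𝕜).1 = 0 := rfl
      rw [this, smul_zero, add_zero]
    · intro i hi
      rw [Prod.snd_add, Finsupp.add_apply, Prod.smul_snd, Finsupp.smul_apply]
      have : (be m : VV 𝕜).2 i = 0 := by
        have := zet_be (𝕜 := 𝕜) i m
        rw [zet_apply] at this
        rw [this, if_neg (by omega)]
      rw [this, smul_zero, add_zero]
  have h2 : nn (RV M y) = nrm m (RV M y) :=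
    nn_eq (fun i hi => RV_supp M y i (by omega))
  have h3 : qn m (RV M y + t • be m) = ‖gg m (RV M y) + t‖ := by
    rw [← sq_eq_sq₀ (qn_nonneg _ _) (norm_nonneg _), qn_sq]
    have h4 : Om m (Hl (RV M y + t • be m)) = 0 := by
      rw [map_add, map_smul, Hl_be, smul_zero, add_zero, Hl_RV, Om_Pr hM]
    have h5 : GG m (RV M y + t • be m) = gg m (RV M y) + t := by
      rw [map_add, map_smul, GG_apply, GG_apply, RV_supp M y m hM, ← gg_RV m (be m)]
      have h6 : RV m (be m : VV 𝕜) = 0 := by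
        refine VV_ext ?_ ?_ ?_
        · rfl
        · rw [Hl_RV, Hl_be, map_zero, map_zero]
        · intro i
          rw [zet_apply, RV_snd_apply, map_zero]
          split_ifs with h
          · have := zet_be (𝕜 := 𝕜) i m
            rw [zet_apply] at this
            rw [this, if_neg (by omega)]
          · rfl
      have h7 : (be m : VV 𝕜).2 m = 1 := by
        have := zet_be (𝕜 := 𝕜) m m
        rw [zet_apply] at this
        rw [this, if_pos rfl]
      rw [h6, h7, map_zero]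
      simp
    rw [h4, h5]
    simp
  rw [h1, h2, h3]

theorem gg_zero_be (m : ℕ) : nn (be m : VV 𝕜) ≤ 1 := by
  have h := nn_add (le_refl m) (0 : VV 𝕜) 1
  rw [map_zero, zero_add, one_smul, map_zero, map_zero, zero_add] at h
  rw [h]
  simp

theorem tendsto_RV (y : VV 𝕜) : Tendsto (fun M => nn (RV M y - y)) atTop (𝓝 0) := by
  have hH := tendsto_Pr (Hl y)
  have h1 : Tendsto (fun M => ‖Pr M (Hl y) - Hl y‖) atTop (𝓝 0) :=
    (tendsto_iff_norm_sub_tendsto_zero).1 hH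
  have h2 : Tendsto (fun M => √2 * ‖Pr M (Hl y) - Hl y‖) atTop (𝓝 0) := by
    simpa using h1.const_mul (√2)
  refine squeeze_zero' (Eventually.of_forall fun M => nn_nonneg _) ?_ h2
  filter_upwards [eventually_ge_atTop (bd y)] with M hM
  have hs : ∀ i, 0 ≤ i → (RV M y - y).2 i = 0 := by
    intro i _
    rw [Prod.snd_sub, Finsupp.sub_apply, RV_snd_apply]
    split_ifs with h
    · exact sub_self _
    · rw [bd_spec y i (by omega), sub_zero]
  rw [nn_eq hs]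
  rw [← sq_le_sq₀ (nrm_nonneg _ _) (by positivity), nrm_zero_sq, mul_pow, Real.sq_sqrt (by norm_num)]
  have h3 : Hl (RV M y - y) = Pr M (Hl y) - Hl y := by rw [map_sub, Hl_RV]
  have h4 : ‖Om 0 (Hl (RV M y - y))‖ ^ 2 ≤ ‖Pr M (Hl y) - Hl y‖ ^ 2 := by
    rw [h3]
    have := norm_Om_le 0 (Pr M (Hl y) - Hl y)
    gcongr
  have h5 : ‖Zl (RV M y - y)‖ ^ 2 ≤ ‖Pr M (Hl y) - Hl y‖ ^ 2 := by
    have h6 : ‖Zl (RV M y - y)‖ ^ 4 = ‖Pr M (Hl y) - Hl y‖ ^ 4 := by
      rw [XX_norm4, ← h3]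
      have : (Zl (RV M y - y)).fst = 0 := by
        change y.1.fst - y.1.fst = 0
        exact sub_self _
      rw [this]
      simp
    have h7 : ‖Zl (RV M y - y)‖ = ‖Pr M (Hl y) - Hl y‖ :=
      (pow_left_inj₀ (norm_nonneg _) (norm_nonneg _) (by norm_num)).1 h6
    rw [h7]
  linarith

end Pool.Agent.H26.Bpb
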